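import Mathlib

/-!
# The Kuhn cycle of the discrete 4-torus and the period formula
-/

namespace K3B

open Finset Equiv

section Alg

variable {V : Type*} [AddCommGroup V] [Fintype V]

/-- coboundary of a 2-cochain -/
def d2 {X : Type*} (c : X → X → X → ℚ) (p q r s : X) : ℚ :=
  c q r s - c p r s + c p q s - c p q r

/-- coboundary of a 3-cochain -/
def d3 {X : Type*} (b : X → X → X → X → ℚ) (p q r s t : X) : ℚ :=
  b q r s t - b p r s t + b p q s t - b p q r t + b p q r s

/-- coboundary of a 1-cochain -/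
def d1 {X : Type*} (b : X → X → ℚ) (p q r : X) : ℚ :=
  b q r - b p r + b p q

/-- cup product of two 2-cochains -/
def cup22 {X : Type*} (c c' : X → X → X → ℚ) (p q r s t : X) : ℚ := c p q r * c' r s t

/-- sum over the Kuhn simplices -/
def ev4 (e : Fin 4 → V) (w : V → V → V → V → V → ℚ) : ℚ :=
  ∑ v, ∑ s : Perm (Fin 4), ((Perm.sign s : ℤ) : ℚ) *
    w v (v + e (s 0)) (v + e (s 0) + e (s 1)) (v + e (s 0) + e (s 1) + e (s 2))
      (v + e (s 0) + e (s 1) + e (s 2) + e (s 3))

lemma sgn_swap (s : Perm (Fin 4)) {i j : Fin 4} (h : i ≠ j) :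
    ((Perm.sign (s * swap i j) : ℤ) : ℚ) = - ((Perm.sign s : ℤ) : ℚ) := by
  rw [Perm.sign_mul, Perm.sign_swap h]
  push_cast
  ring

/-- antisymmetrised sums -/
lemma sum_swap (F : Perm (Fin 4) → ℚ) {i j : Fin 4} (h : i ≠ j) :
    ∑ s : Perm (Fin 4), ((Perm.sign s : ℤ) : ℚ) * F s
      = - ∑ s : Perm (Fin 4), ((Perm.sign s : ℤ) : ℚ) * F (s * swap i j) := by
  rw [← Finset.sum_neg_distrib]
  refine Fintype.sum_equiv (Equiv.mulRight (swap i j)) _ _ (fun s => ?_)
  simp only [Equiv.coe_mulRight]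
  rw [sgn_swap s h, mul_assoc s, swap_mul_self, mul_one]
  ring

lemma sum_zero_of_swap (F : Perm (Fin 4) → ℚ) {i j : Fin 4} (h : i ≠ j)
    (hF : ∀ s, F (s * swap i j) = F s) :
    ∑ s : Perm (Fin 4), ((Perm.sign s : ℤ) : ℚ) * F s = 0 := by
  have h1 := sum_swap F h
  simp only [hF] at h1
  linarith

/-- the 3-cycle 0 -> 2 -> 3 -> 0 composed on the right -/
lemma sum_perm (F : Perm (Fin 4) → ℚ) (t : Perm (Fin 4)) :
    ∑ s : Perm (Fin 4), ((Perm.sign s : ℤ) : ℚ) * F s
      = ((Perm.sign t : ℤ) : ℚ) *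
        ∑ s : Perm (Fin 4), ((Perm.sign s : ℤ) : ℚ) * F (s * t) := by
  rw [Finset.mul_sum]
  symm
  refine Fintype.sum_equiv (Equiv.mulRight t) _ _ (fun s => ?_)
  simp only [Equiv.coe_mulRight]
  rw [Perm.sign_mul]
  push_cast
  ring

/-- **Stokes**: the Kuhn chain is a cycle. -/
theorem ev4_d3 (e : Fin 4 → V) (b : V → V → V → V → ℚ) : ev4 e (d3 b) = 0 := by
  unfold ev4 d3
  -- the three middle terms vanish for each v
  have hmid : ∀ v : V,
      ∑ s : Perm (Fin 4), ((Perm.sign s : ℤ) : ℚ) *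
        (b (v + e (s 0)) (v + e (s 0) + e (s 1)) (v + e (s 0) + e (s 1) + e (s 2))
            (v + e (s 0) + e (s 1) + e (s 2) + e (s 3))
          - b v (v + e (s 0) + e (s 1)) (v + e (s 0) + e (s 1) + e (s 2))
            (v + e (s 0) + e (s 1) + e (s 2) + e (s 3))
          + b v (v + e (s 0)) (v + e (s 0) + e (s 1) + e (s 2))
            (v + e (s 0) + e (s 1) + e (s 2) + e (s 3))
          - b v (v + e (s 0)) (v + e (s 0) + e (s 1))
            (v + e (s 0) + e (s 1) + e (s 2) + e (s 3))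
          + b v (v + e (s 0)) (v + e (s 0) + e (s 1)) (v + e (s 0) + e (s 1) + e (s 2)))
      = (∑ s : Perm (Fin 4), ((Perm.sign s : ℤ) : ℚ) *
          b (v + e (s 0)) (v + e (s 0) + e (s 1)) (v + e (s 0) + e (s 1) + e (s 2))
            (v + e (s 0) + e (s 1) + e (s 2) + e (s 3)))
        + ∑ s : Perm (Fin 4), ((Perm.sign s : ℤ) : ℚ) *
          b v (v + e (s 0)) (v + e (s 0) + e (s 1)) (v + e (s 0) + e (s 1) + e (s 2)) := by
    intro v
    have a1 := sum_zero_of_swap (fun s : Perm (Fin 4) =>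
      b v (v + e (s 0) + e (s 1)) (v + e (s 0) + e (s 1) + e (s 2))
            (v + e (s 0) + e (s 1) + e (s 2) + e (s 3))) (i := 0) (j := 1) (by decide)
      (fun s => by
        simp only [Perm.mul_apply, swap_apply_left, swap_apply_right]
        rw [swap_apply_of_ne_of_ne (by decide) (by decide),
          swap_apply_of_ne_of_ne (by decide) (by decide)]
        rw [add_right_comm v (e (s 1)) (e (s 0))])
    have a2 := sum_zero_of_swap (fun s : Perm (Fin 4) =>
      b v (v + e (s 0)) (v + e (s 0) + e (s 1) + e (s 2))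
            (v + e (s 0) + e (s 1) + e (s 2) + e (s 3))) (i := 1) (j := 2) (by decide)
      (fun s => by
        simp only [Perm.mul_apply, swap_apply_left, swap_apply_right]
        rw [swap_apply_of_ne_of_ne (by decide) (by decide),
          swap_apply_of_ne_of_ne (by decide) (by decide)]
        rw [add_right_comm (v + e (s 0)) (e (s 2)) (e (s 1))])
    have a3 := sum_zero_of_swap (fun s : Perm (Fin 4) =>
      b v (v + e (s 0)) (v + e (s 0) + e (s 1))
            (v + e (s 0) + e (s 1) + e (s 2) + e (s 3))) (i := 2) (j := 3) (by decide)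
      (fun s => by
        simp only [Perm.mul_apply, swap_apply_left, swap_apply_right]
        rw [swap_apply_of_ne_of_ne (by decide) (by decide),
          swap_apply_of_ne_of_ne (by decide) (by decide)]
        rw [add_right_comm (v + e (s 0) + e (s 1)) (e (s 3)) (e (s 2))])
    simp only [mul_add, mul_sub, Finset.sum_add_distrib, Finset.sum_sub_distrib] at a1 a2 a3 ⊢
    linarith
  rw [Finset.sum_congr rfl (fun v _ => hmid v), Finset.sum_add_distrib]
  -- shift in the first sum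
  have hshift : ∑ v : V, ∑ s : Perm (Fin 4), ((Perm.sign s : ℤ) : ℚ) *
          b (v + e (s 0)) (v + e (s 0) + e (s 1)) (v + e (s 0) + e (s 1) + e (s 2))
            (v + e (s 0) + e (s 1) + e (s 2) + e (s 3))
      = ∑ v : V, ∑ s : Perm (Fin 4), ((Perm.sign s : ℤ) : ℚ) *
          b v (v + e (s 1)) (v + e (s 1) + e (s 2))
            (v + e (s 1) + e (s 2) + e (s 3)) := by
    rw [Finset.sum_comm]
    conv_rhs => rw [Finset.sum_comm]
    refine Finset.sum_congr rfl (fun s _ => ?_)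
    exact Fintype.sum_equiv (Equiv.addRight (e (s 0))) _ _ (fun v => rfl)
  rw [hshift]
  -- rotate
  rw [← Finset.sum_add_distrib]
  refine Finset.sum_eq_zero (fun v _ => ?_)
  have hrot := sum_perm (fun s : Perm (Fin 4) =>
      b v (v + e (s 0)) (v + e (s 0) + e (s 1)) (v + e (s 0) + e (s 1) + e (s 2)))
      (finRotate 4)
  have hs : ((Perm.sign (finRotate 4) : ℤ) : ℚ) = -1 := by
    rw [sign_finRotate]
    norm_num
  rw [hs] at hrot
  have e1 : (finRotate 4) 0 = 1 := by decide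
  have e2 : (finRotate 4) 1 = 2 := by decide
  have e3 : (finRotate 4) 2 = 3 := by decide
  simp only [Perm.mul_apply, e1, e2, e3] at hrot
  linarith

/-- value on the unit square `v, v + e i, v + e j, v + e i + e j` -/
def sq (e : Fin 4 → V) (c : V → V → V → ℚ) (i j : Fin 4) (v : V) : ℚ :=
  c v (v + e i) (v + e i + e j) - c v (v + e j) (v + e j + e i)

omit [Fintype V] in
lemma sq_antisymm (e : Fin 4 → V) (c : V → V → V → ℚ) (i j : Fin 4) (v : V) :
    sq e c j i v = - sq e c i j v := by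
  unfold sq; ring

/-- closed antisymmetric cubical 2-forms -/
structure Closed (e : Fin 4 → V) (C : Fin 4 → Fin 4 → V → ℚ) : Prop where
  anti : ∀ i j v, C j i v = - C i j v
  closed : ∀ a i j v, C i j (v + e a) - C i j v - (C a j (v + e i) - C a j v)
    + (C a i (v + e j) - C a i v) = 0

/-- `c` is a cocycle on the Kuhn paths of the unit cubes -/
def CubeCocycle (e : Fin 4 → V) (c : V → V → V → ℚ) : Prop :=
  ∀ v i j k, i ≠ j → i ≠ k → j ≠ k →
    d2 c v (v + e i) (v + e i + e j) (v + e i + e j + e k) = 0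

omit [Fintype V] in
theorem closed_sq (e : Fin 4 → V) (c : V → V → V → ℚ) (hc : CubeCocycle e c) :
    Closed e (sq e c) where
  anti i j v := sq_antisymm e c i j v
  closed a i j v := by
    by_cases h1 : a = i
    · subst h1
      have h0 : ∀ w, sq e c a a w = 0 := fun w => by unfold sq; ring
      rw [h0, h0]; ring
    by_cases h2 : a = j
    · subst h2
      have h0 : ∀ w, sq e c a a w = 0 := fun w => by unfold sq; ring
      rw [h0, h0, sq_antisymm e c i a, sq_antisymm e c i a]; ring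
    by_cases h3 : i = j
    · subst h3
      have h0 : ∀ w, sq e c i i w = 0 := fun w => by unfold sq; ring
      rw [h0, h0]; ring
    have k1 := hc v a i j h1 h2 h3
    have k2 := hc v a j i h2 h1 (Ne.symm h3)
    have k3 := hc v i a j (Ne.symm h1) h3 h2
    have k4 := hc v i j a h3 (Ne.symm h1) (Ne.symm h2)
    have k5 := hc v j a i (Ne.symm h2) (Ne.symm h3) h1
    have k6 := hc v j i a (Ne.symm h3) (Ne.symm h2) (Ne.symm h1)
    have q1 : v + e i + e a = v + e a + e i := add_right_comm _ _ _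
    have q2 : v + e j + e a = v + e a + e j := add_right_comm _ _ _
    have q3 : v + e j + e i = v + e i + e j := add_right_comm _ _ _
    have q4 : v + e a + e j + e i = v + e a + e i + e j := add_right_comm _ _ _
    have q5 : v + e i + e j + e a = v + e a + e i + e j := by abel
    unfold d2 at k1 k2 k3 k4 k5 k6
    unfold sq
    simp only [q1, q2, q3, q4, q5] at k1 k2 k3 k4 k5 k6 ⊢
    linarith

/-- the bilinear form on 2-forms -/
def Q (e : Fin 4 → V) (C C' : Fin 4 → Fin 4 → V → ℚ) : ℚ :=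
  ∑ v, ∑ s : Perm (Fin 4), ((Perm.sign s : ℤ) : ℚ) *
    (C (s 0) (s 1) v * C' (s 2) (s 3) (v + e (s 0) + e (s 1)))

/-- the cup product of 2-cochains is evaluated through the square values -/
theorem ev4_cup (e : Fin 4 → V) (c c' : V → V → V → ℚ) :
    4 * ev4 e (cup22 c c') = Q e (sq e c) (sq e c') := by
  unfold ev4 Q
  rw [Finset.mul_sum]
  refine Finset.sum_congr rfl (fun v _ => ?_)
  unfold cup22
  -- antisymmetrise in 0, 1
  have s1 := sum_swap (fun s : Perm (Fin 4) => c v (v + e (s 0)) (v + e (s 0) + e (s 1)) *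
      c' (v + e (s 0) + e (s 1)) (v + e (s 0) + e (s 1) + e (s 2))
      (v + e (s 0) + e (s 1) + e (s 2) + e (s 3))) (i := 0) (j := 1) (by decide)
  have s2 := sum_swap (fun s : Perm (Fin 4) => sq e c (s 0) (s 1) v *
      c' (v + e (s 0) + e (s 1)) (v + e (s 0) + e (s 1) + e (s 2))
      (v + e (s 0) + e (s 1) + e (s 2) + e (s 3))) (i := 2) (j := 3) (by decide)
  simp only [Perm.mul_apply, swap_apply_left, swap_apply_right] at s1 s2
  have n0 : (swap (0 : Fin 4) 1) 2 = 2 := by decide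
  have n1 : (swap (0 : Fin 4) 1) 3 = 3 := by decide
  have n2 : (swap (2 : Fin 4) 3) 0 = 0 := by decide
  have n3 : (swap (2 : Fin 4) 3) 1 = 1 := by decide
  simp only [n0, n1, n2, n3] at s1 s2
  have t1 : 2 * ∑ s : Perm (Fin 4), ((Perm.sign s : ℤ) : ℚ) *
      (c v (v + e (s 0)) (v + e (s 0) + e (s 1)) *
      c' (v + e (s 0) + e (s 1)) (v + e (s 0) + e (s 1) + e (s 2))
      (v + e (s 0) + e (s 1) + e (s 2) + e (s 3)))
    = ∑ s : Perm (Fin 4), ((Perm.sign s : ℤ) : ℚ) * (sq e c (s 0) (s 1) v *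
      c' (v + e (s 0) + e (s 1)) (v + e (s 0) + e (s 1) + e (s 2))
      (v + e (s 0) + e (s 1) + e (s 2) + e (s 3))) := by
    rw [two_mul]
    nth_rewrite 2 [s1]
    rw [← sub_eq_add_neg, ← Finset.sum_sub_distrib]
    refine Finset.sum_congr rfl (fun s _ => ?_)
    unfold sq
    rw [add_right_comm v (e (s 1)) (e (s 0))]
    ring
  have t2 : 2 * ∑ s : Perm (Fin 4), ((Perm.sign s : ℤ) : ℚ) * (sq e c (s 0) (s 1) v *
      c' (v + e (s 0) + e (s 1)) (v + e (s 0) + e (s 1) + e (s 2))
      (v + e (s 0) + e (s 1) + e (s 2) + e (s 3)))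
    = ∑ s : Perm (Fin 4), ((Perm.sign s : ℤ) : ℚ) * (sq e c (s 0) (s 1) v *
      sq e c' (s 2) (s 3) (v + e (s 0) + e (s 1))) := by
    rw [two_mul]
    nth_rewrite 2 [s2]
    rw [← sub_eq_add_neg, ← Finset.sum_sub_distrib]
    refine Finset.sum_congr rfl (fun s _ => ?_)
    simp only [sq]
    ring
  rw [← t2, ← t1]
  ring

/-- the exact form `dΨ` -/
def dd (e : Fin 4 → V) (P : Fin 4 → V → ℚ) (i j : Fin 4) (v : V) : ℚ :=
  P j (v + e i) - P j v - P i (v + e j) + P i v

/-- Stokes for products -/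
theorem Q_dd (e : Fin 4 → V) (P : Fin 4 → V → ℚ) (C' : Fin 4 → Fin 4 → V → ℚ)
    (hC' : Closed e C') : Q e (dd e P) C' = 0 := by
  unfold Q
  -- first step: antisymmetry in 0 1
  have h1 : ∀ v, ∑ s : Perm (Fin 4), ((Perm.sign s : ℤ) : ℚ) *
      (dd e P (s 0) (s 1) v * C' (s 2) (s 3) (v + e (s 0) + e (s 1)))
      = 2 * ∑ s : Perm (Fin 4), ((Perm.sign s : ℤ) : ℚ) *
      ((P (s 1) (v + e (s 0)) - P (s 1) v) * C' (s 2) (s 3) (v + e (s 0) + e (s 1))) := by
    intro v
    have s1 := sum_swap (fun s : Perm (Fin 4) => (P (s 1) (v + e (s 0)) - P (s 1) v) *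
      C' (s 2) (s 3) (v + e (s 0) + e (s 1))) (i := 0) (j := 1) (by decide)
    simp only [Perm.mul_apply, swap_apply_left, swap_apply_right] at s1
    have n0 : (swap (0 : Fin 4) 1) 2 = 2 := by decide
    have n1 : (swap (0 : Fin 4) 1) 3 = 3 := by decide
    simp only [n0, n1] at s1
    rw [two_mul]
    nth_rewrite 2 [s1]
    rw [← sub_eq_add_neg, ← Finset.sum_sub_distrib]
    refine Finset.sum_congr rfl (fun s _ => ?_)
    unfold dd
    rw [add_right_comm v (e (s 1)) (e (s 0))]
    ring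
  rw [Finset.sum_congr rfl (fun v _ => h1 v), ← Finset.mul_sum]
  have h2 : ∑ v : V, ∑ s : Perm (Fin 4), ((Perm.sign s : ℤ) : ℚ) *
      ((P (s 1) (v + e (s 0)) - P (s 1) v) * C' (s 2) (s 3) (v + e (s 0) + e (s 1)))
      = - ∑ v : V, ∑ s : Perm (Fin 4), ((Perm.sign s : ℤ) : ℚ) *
      (P (s 1) v * (C' (s 2) (s 3) (v + e (s 1) + e (s 0)) - C' (s 2) (s 3) (v + e (s 1)))) := by
    rw [Finset.sum_comm]
    conv_rhs => rw [Finset.sum_comm]
    rw [← Finset.sum_neg_distrib]
    refine Finset.sum_congr rfl (fun s _ => ?_)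
    have h3 : ∑ v : V, ((Perm.sign s : ℤ) : ℚ) *
        (P (s 1) (v + e (s 0)) * C' (s 2) (s 3) (v + e (s 0) + e (s 1)))
        = ∑ v : V, ((Perm.sign s : ℤ) : ℚ) * (P (s 1) v * C' (s 2) (s 3) (v + e (s 1))) :=
      Fintype.sum_equiv (Equiv.addRight (e (s 0))) _ _ (fun v => rfl)
    have h4 : ∑ v : V, ((Perm.sign s : ℤ) : ℚ) *
        ((P (s 1) (v + e (s 0)) - P (s 1) v) * C' (s 2) (s 3) (v + e (s 0) + e (s 1)))
        = ∑ v : V, ((Perm.sign s : ℤ) : ℚ) *
        (P (s 1) (v + e (s 0)) * C' (s 2) (s 3) (v + e (s 0) + e (s 1)))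
        - ∑ v : V, ((Perm.sign s : ℤ) : ℚ) *
        (P (s 1) v * C' (s 2) (s 3) (v + e (s 0) + e (s 1))) := by
      rw [← Finset.sum_sub_distrib]
      exact Finset.sum_congr rfl (fun v _ => by ring)
    rw [h4, h3, ← Finset.sum_sub_distrib, ← Finset.sum_neg_distrib]
    refine Finset.sum_congr rfl (fun v _ => ?_)
    rw [add_right_comm v (e (s 0)) (e (s 1))]
    ring
  rw [h2]
  -- cyclic sum over 0, 2, 3
  have h5 : ∀ v, ∑ s : Perm (Fin 4), ((Perm.sign s : ℤ) : ℚ) *
      (P (s 1) v * (C' (s 2) (s 3) (v + e (s 1) + e (s 0)) - C' (s 2) (s 3) (v + e (s 1)))) = 0 := by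
    intro v
    have c1 := sum_perm (fun s : Perm (Fin 4) =>
      P (s 1) v * (C' (s 2) (s 3) (v + e (s 1) + e (s 0)) - C' (s 2) (s 3) (v + e (s 1))))
      (swap 0 2 * swap 2 3)
    have c2 := sum_perm (fun s : Perm (Fin 4) =>
      P (s 1) v * (C' (s 2) (s 3) (v + e (s 1) + e (s 0)) - C' (s 2) (s 3) (v + e (s 1))))
      (swap 0 3 * swap 2 3)
    have g1 : ((Perm.sign (swap (0 : Fin 4) 2 * swap 2 3) : ℤ) : ℚ) = 1 := by
      rw [Perm.sign_mul, Perm.sign_swap (by decide), Perm.sign_swap (by decide)]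
      norm_num
    have g2 : ((Perm.sign (swap (0 : Fin 4) 3 * swap 2 3) : ℤ) : ℚ) = 1 := by
      rw [Perm.sign_mul, Perm.sign_swap (by decide), Perm.sign_swap (by decide)]
      norm_num
    rw [g1] at c1
    rw [g2] at c2
    simp only [Perm.mul_apply] at c1 c2
    have m0 : (swap (0 : Fin 4) 2) ((swap 2 3) 0) = 2 := by decide
    have m1 : (swap (0 : Fin 4) 2) ((swap 2 3) 1) = 1 := by decide
    have m2 : (swap (0 : Fin 4) 2) ((swap 2 3) 2) = 3 := by decide
    have m3 : (swap (0 : Fin 4) 2) ((swap 2 3) 3) = 0 := by decide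
    have l0 : (swap (0 : Fin 4) 3) ((swap 2 3) 0) = 3 := by decide
    have l1 : (swap (0 : Fin 4) 3) ((swap 2 3) 1) = 1 := by decide
    have l2 : (swap (0 : Fin 4) 3) ((swap 2 3) 2) = 0 := by decide
    have l3 : (swap (0 : Fin 4) 3) ((swap 2 3) 3) = 2 := by decide
    simp only [m0, m1, m2, m3] at c1
    simp only [l0, l1, l2, l3] at c2
    have tot : ∑ s : Perm (Fin 4), ((Perm.sign s : ℤ) : ℚ) *
      (P (s 1) v * (C' (s 2) (s 3) (v + e (s 1) + e (s 0)) - C' (s 2) (s 3) (v + e (s 1))))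
      + ∑ s : Perm (Fin 4), ((Perm.sign s : ℤ) : ℚ) *
      (P (s 1) v * (C' (s 3) (s 0) (v + e (s 1) + e (s 2)) - C' (s 3) (s 0) (v + e (s 1))))
      + ∑ s : Perm (Fin 4), ((Perm.sign s : ℤ) : ℚ) *
      (P (s 1) v * (C' (s 0) (s 2) (v + e (s 1) + e (s 3)) - C' (s 0) (s 2) (v + e (s 1)))) = 0 := by
      rw [← Finset.sum_add_distrib, ← Finset.sum_add_distrib]
      refine Finset.sum_eq_zero (fun s _ => ?_)
      have hcl := hC'.closed (s 0) (s 2) (s 3) (v + e (s 1))
      rw [hC'.anti (s 0) (s 3), hC'.anti (s 0) (s 3)]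
      linear_combination ((Perm.sign s : ℤ) : ℚ) * P (s 1) v * hcl
    linarith
  rw [Finset.sum_eq_zero (fun v _ => h5 v)]
  ring

/-- translation invariance -/
theorem Q_translate (e : Fin 4 → V) (C C' : Fin 4 → Fin 4 → V → ℚ)
    (hC : Closed e C) (hC' : Closed e C') (a : Fin 4) :
    Q e (fun i j v => C i j (v + e a)) C' = Q e C C' := by
  have h := Q_dd e (fun i v => C a i v) C' hC'
  have h2 : Q e (fun i j v => C i j (v + e a)) C' = Q e C C' + Q e (dd e (fun i v => C a i v)) C' := by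
    unfold Q
    rw [← Finset.sum_add_distrib]
    refine Finset.sum_congr rfl (fun v _ => ?_)
    rw [← Finset.sum_add_distrib]
    refine Finset.sum_congr rfl (fun s _ => ?_)
    have hcl := hC.closed a (s 0) (s 1) v
    have h3 : C (s 0) (s 1) (v + e a) = C (s 0) (s 1) v + dd e (fun i v => C a i v) (s 0) (s 1) v := by
      unfold dd
      linarith
    beta_reduce
    rw [h3]
    ring
  rw [h2, h, add_zero]

omit [Fintype V] in
lemma Closed.translate {e : Fin 4 → V} {C : Fin 4 → Fin 4 → V → ℚ} (hC : Closed e C) (u : V) :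
    Closed e (fun i j v => C i j (v + u)) where
  anti i j v := hC.anti i j _
  closed a i j v := by
    have := hC.closed a i j (v + u)
    rw [add_right_comm v (e a) u, add_right_comm v (e i) u, add_right_comm v (e j) u]
    exact this

omit [Fintype V] in
/-- a function invariant under the steps `e a` is constant -/
lemma const_of_steps (e : Fin 4 → V) (hgen : AddSubgroup.closure (Set.range e) = ⊤)
    (F : V → ℚ) (hF : ∀ a u, F (u + e a) = F u) (u : V) : F u = F 0 := by
  have key : ∀ w ∈ AddSubgroup.closure (Set.range e), ∀ u, F (u + w) = F u := by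
    intro w hw
    induction hw using AddSubgroup.closure_induction with
    | mem x hx =>
      obtain ⟨a, rfl⟩ := hx
      exact hF a
    | zero => intro u; rw [add_zero]
    | add x y _ _ hx hy => intro u; rw [← add_assoc, hy, hx]
    | neg x _ hx =>
      intro u
      have := hx (u + -x)
      rw [neg_add_cancel_right] at this
      exact this.symm
  have := key u (by rw [hgen]; exact AddSubgroup.mem_top u) 0
  rwa [zero_add] at this

theorem Q_eq (e : Fin 4 → V) (hgen : AddSubgroup.closure (Set.range e) = ⊤)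
    (C C' : Fin 4 → Fin 4 → V → ℚ) (hC : Closed e C) (hC' : Closed e C') :
    (Fintype.card V : ℚ) * Q e C C' = ∑ s : Perm (Fin 4), ((Perm.sign s : ℤ) : ℚ) *
      ((∑ v, C (s 0) (s 1) v) * (∑ v, C' (s 2) (s 3) v)) := by
  have hconst : ∀ u, Q e (fun i j v => C i j (v + u)) C' = Q e C C' := by
    intro u
    have := const_of_steps e hgen (fun u => Q e (fun i j v => C i j (v + u)) C') (by
      intro a u
      have := Q_translate e (fun i j v => C i j (v + u)) C' (hC.translate u) hC' a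
      rw [← this]
      congr 1
      funext i j v
      rw [add_right_comm, add_assoc]) u
    rw [this]
    simp
  have h1 : (Fintype.card V : ℚ) * Q e C C' = ∑ u, Q e (fun i j v => C i j (v + u)) C' := by
    rw [Finset.sum_congr rfl (fun u _ => hconst u)]
    simp
  rw [h1]
  unfold Q
  rw [Finset.sum_comm]
  have h2 : ∀ v : V, ∑ u : V, ∑ s : Perm (Fin 4), ((Perm.sign s : ℤ) : ℚ) *
      (C (s 0) (s 1) (v + u) * C' (s 2) (s 3) (v + e (s 0) + e (s 1)))
      = ∑ s : Perm (Fin 4), ((Perm.sign s : ℤ) : ℚ) *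
      ((∑ u, C (s 0) (s 1) u) * C' (s 2) (s 3) (v + e (s 0) + e (s 1))) := by
    intro v
    rw [Finset.sum_comm]
    refine Finset.sum_congr rfl (fun s _ => ?_)
    rw [← Finset.mul_sum, ← Finset.sum_mul]
    congr 2
    exact Fintype.sum_equiv (Equiv.addLeft v) _ _ (fun u => rfl)
  rw [Finset.sum_congr rfl (fun v _ => h2 v), Finset.sum_comm]
  refine Finset.sum_congr rfl (fun s _ => ?_)
  rw [← Finset.mul_sum, ← Finset.mul_sum]
  congr 2
  exact Fintype.sum_equiv (Equiv.addRight (e (s 0) + e (s 1))) _ _ (fun u => by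
    simp [add_assoc])

/-- evaluation on the coordinate 2-torus through `v` -/
def per (m : ℕ) (e : Fin 4 → V) (c : V → V → V → ℚ) (i j : Fin 4) (v : V) : ℚ :=
  ∑ a ∈ range m, ∑ b ∈ range m, sq e c i j (v + a • e i + b • e j)

omit [Fintype V] in
lemma sum_range_shift (m : ℕ) (x : V) (hx : m • x = 0) (F : V → ℚ) (v : V) :
    ∑ a ∈ range m, F (v + a • x + x) = ∑ a ∈ range m, F (v + a • x) := by
  have h1 : ∑ a ∈ range m, F (v + a • x + x) = ∑ a ∈ range m, F (v + (a + 1) • x) :=
    Finset.sum_congr rfl (fun a _ => by rw [add_smul, one_smul, add_assoc])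
  rw [h1]
  have h2 := Finset.sum_range_succ (fun a : ℕ => F (v + a • x)) m
  have h3 := Finset.sum_range_succ' (fun a : ℕ => F (v + a • x)) m
  rw [h2] at h3
  rw [hx] at h3
  simp only [add_zero, zero_smul] at h3
  linarith

omit [Fintype V] in
lemma per_step (m : ℕ) (e : Fin 4 → V) (he : ∀ i, m • e i = 0) (c : V → V → V → ℚ)
    (hc : CubeCocycle e c) (i j a : Fin 4) (v : V) :
    per m e c i j (v + e a) = per m e c i j v := by
  have hC := closed_sq e c hc
  unfold per
  rw [← sub_eq_zero, ← Finset.sum_sub_distrib]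
  have h1 : ∀ x y : ℕ, sq e c i j (v + e a + x • e i + y • e j) - sq e c i j (v + x • e i + y • e j)
      = (sq e c a j (v + x • e i + y • e j + e i) - sq e c a j (v + x • e i + y • e j))
      - (sq e c a i (v + x • e i + y • e j + e j) - sq e c a i (v + x • e i + y • e j)) := by
    intro x y
    have := hC.closed a i j (v + x • e i + y • e j)
    have q : v + e a + x • e i + y • e j = v + x • e i + y • e j + e a := by abel
    rw [q]
    linarith
  have h2 : ∑ x ∈ range m, (∑ y ∈ range m, sq e c i j (v + e a + x • e i + y • e j)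
      - ∑ y ∈ range m, sq e c i j (v + x • e i + y • e j))
      = ∑ x ∈ range m, ∑ y ∈ range m,
        (sq e c a j (v + x • e i + y • e j + e i) - sq e c a j (v + x • e i + y • e j))
      - ∑ x ∈ range m, ∑ y ∈ range m,
        (sq e c a i (v + x • e i + y • e j + e j) - sq e c a i (v + x • e i + y • e j)) := by
    rw [← Finset.sum_sub_distrib]
    refine Finset.sum_congr rfl (fun x _ => ?_)
    rw [← Finset.sum_sub_distrib, ← Finset.sum_sub_distrib]
    exact Finset.sum_congr rfl (fun y _ => h1 x y)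
  rw [h2]
  have h3 : ∑ x ∈ range m, ∑ y ∈ range m,
        (sq e c a j (v + x • e i + y • e j + e i) - sq e c a j (v + x • e i + y • e j)) = 0 := by
    rw [Finset.sum_comm]
    refine Finset.sum_eq_zero (fun y _ => ?_)
    rw [Finset.sum_sub_distrib, sub_eq_zero]
    have := sum_range_shift m (e i) (he i) (fun w => sq e c a j w) (v + y • e j)
    have q1 : ∀ x : ℕ, v + x • e i + y • e j + e i = v + y • e j + x • e i + e i := fun x => by abel
    have q2 : ∀ x : ℕ, v + x • e i + y • e j = v + y • e j + x • e i := fun x => by abel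
    simp only [q2]
    exact this
  have h4 : ∑ x ∈ range m, ∑ y ∈ range m,
        (sq e c a i (v + x • e i + y • e j + e j) - sq e c a i (v + x • e i + y • e j)) = 0 := by
    refine Finset.sum_eq_zero (fun x _ => ?_)
    rw [Finset.sum_sub_distrib, sub_eq_zero]
    exact sum_range_shift m (e j) (he j) (fun w => sq e c a i w) (v + x • e i)
  rw [h3, h4, sub_zero]

omit [Fintype V] in
theorem per_const (m : ℕ) (e : Fin 4 → V) (he : ∀ i, m • e i = 0)
    (hgen : AddSubgroup.closure (Set.range e) = ⊤) (c : V → V → V → ℚ)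
    (hc : CubeCocycle e c) (i j : Fin 4) (v w : V) :
    per m e c i j v = per m e c i j w := by
  rw [const_of_steps e hgen (fun u => per m e c i j u) (fun a u => per_step m e he c hc i j a u) v,
    const_of_steps e hgen (fun u => per m e c i j u) (fun a u => per_step m e he c hc i j a u) w]

theorem sum_per (m : ℕ) (e : Fin 4 → V) (he : ∀ i, m • e i = 0)
    (hgen : AddSubgroup.closure (Set.range e) = ⊤) (c : V → V → V → ℚ)
    (hc : CubeCocycle e c) (i j : Fin 4) (v : V) :
    (Fintype.card V : ℚ) * per m e c i j v = (m : ℚ) ^ 2 * ∑ w, sq e c i j w := by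
  have h1 : (Fintype.card V : ℚ) * per m e c i j v = ∑ w : V, per m e c i j w := by
    rw [Finset.sum_congr rfl (fun w _ => per_const m e he hgen c hc i j w v)]
    simp
  rw [h1]
  unfold per
  rw [Finset.sum_comm]
  have h2 : ∀ a ∈ range m, ∑ w : V, ∑ b ∈ range m, sq e c i j (w + a • e i + b • e j)
      = (m : ℚ) * ∑ w, sq e c i j w := by
    intro a _
    rw [Finset.sum_comm]
    have h3 : ∀ b ∈ range m, ∑ w : V, sq e c i j (w + a • e i + b • e j) = ∑ w, sq e c i j w := by
      intro b _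
      exact Fintype.sum_equiv (Equiv.addRight (a • e i + b • e j)) _ _ (fun u => by
        simp [add_assoc])
    rw [Finset.sum_congr rfl h3]
    simp
  rw [Finset.sum_congr rfl h2]
  simp
  ring

/-- **Period formula**. -/
theorem period_formula (m : ℕ) (hm : 0 < m) (e : Fin 4 → V) (he : ∀ i, m • e i = 0)
    (hgen : AddSubgroup.closure (Set.range e) = ⊤) (hcard : Fintype.card V = m ^ 4)
    (c c' : V → V → V → ℚ)
    (hc : CubeCocycle e c) (hc' : CubeCocycle e c') (v v' : V) :
    4 * ev4 e (cup22 c c') = ∑ s : Perm (Fin 4), ((Perm.sign s : ℤ) : ℚ) *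
      (per m e c (s 0) (s 1) v * per m e c' (s 2) (s 3) v') := by
  rw [ev4_cup]
  have h1 := Q_eq e hgen (sq e c) (sq e c') (closed_sq e c hc) (closed_sq e c' hc')
  have hm' : (m : ℚ) ≠ 0 := by exact_mod_cast hm.ne'
  have hcV : (Fintype.card V : ℚ) = (m : ℚ) ^ 4 := by rw [hcard]; push_cast; ring
  have h2 : ∀ i j, ∑ w, sq e c i j w = (m : ℚ) ^ 2 * per m e c i j v := by
    intro i j
    have := sum_per m e he hgen c hc i j v
    rw [hcV] at this
    field_simp
    have h3 : (m : ℚ) ^ 2 * ((m : ℚ) ^ 2 * per m e c i j v) = (m : ℚ) ^ 2 * ∑ w, sq e c i j w := by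
      rw [← this]; ring
    exact (mul_left_cancel₀ (pow_ne_zero 2 hm') h3).symm
  have h2' : ∀ i j, ∑ w, sq e c' i j w = (m : ℚ) ^ 2 * per m e c' i j v' := by
    intro i j
    have := sum_per m e he hgen c' hc' i j v'
    rw [hcV] at this
    have h3 : (m : ℚ) ^ 2 * ((m : ℚ) ^ 2 * per m e c' i j v') = (m : ℚ) ^ 2 * ∑ w, sq e c' i j w := by
      rw [← this]; ring
    exact (mul_left_cancel₀ (pow_ne_zero 2 hm') h3).symm
  simp only [h2, h2'] at h1
  rw [hcV] at h1
  have h4 : (m : ℚ) ^ 4 * Q e (sq e c) (sq e c') = (m : ℚ) ^ 4 *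
      ∑ s : Perm (Fin 4), ((Perm.sign s : ℤ) : ℚ) *
      (per m e c (s 0) (s 1) v * per m e c' (s 2) (s 3) v') := by
    rw [h1, Finset.mul_sum]
    refine Finset.sum_congr rfl (fun s _ => ?_)
    ring
  exact mul_left_cancel₀ (pow_ne_zero 4 hm') h4

omit [Fintype V] in
lemma per_antisymm (m : ℕ) (e : Fin 4 → V) (c : V → V → V → ℚ) (i j : Fin 4) (v : V) :
    per m e c j i v = - per m e c i j v := by
  unfold per
  rw [Finset.sum_comm, ← Finset.sum_neg_distrib]
  refine Finset.sum_congr rfl (fun a _ => ?_)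
  rw [← Finset.sum_neg_distrib]
  refine Finset.sum_congr rfl (fun b _ => ?_)
  rw [sq_antisymm, add_right_comm]

lemma eps_sum (F : Fin 4 → Fin 4 → Fin 4 → Fin 4 → ℚ) :
    ∑ s : Perm (Fin 4), ((Perm.sign s : ℤ) : ℚ) * F (s 0) (s 1) (s 2) (s 3)
    = F 0 1 2 3 - F 0 1 3 2 - F 0 2 1 3 + F 0 2 3 1 + F 0 3 1 2 - F 0 3 2 1
      - F 1 0 2 3 + F 1 0 3 2 + F 1 2 0 3 - F 1 2 3 0 - F 1 3 0 2 + F 1 3 2 0
      + F 2 0 1 3 - F 2 0 3 1 - F 2 1 0 3 + F 2 1 3 0 + F 2 3 0 1 - F 2 3 1 0
      - F 3 0 1 2 + F 3 0 2 1 + F 3 1 0 2 - F 3 1 2 0 - F 3 2 0 1 + F 3 2 1 0 := by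
  have h : ∀ s : Perm (Fin 4), ((Perm.sign s : ℤ) : ℚ) * F (s 0) (s 1) (s 2) (s 3)
      = ∑ p : Fin 4, ∑ q : Fin 4, ∑ r : Fin 4, ∑ t : Fin 4,
        (((Perm.sign s : ℤ) * (if s 0 = p ∧ s 1 = q ∧ s 2 = r ∧ s 3 = t then 1 else 0) : ℤ) : ℚ)
          * F p q r t := by
    intro s
    rw [Finset.sum_eq_single (s 0), Finset.sum_eq_single (s 1), Finset.sum_eq_single (s 2),
      Finset.sum_eq_single (s 3)]
    · simp
    · intro b _ hb
      simp [Ne.symm hb]
    · simp
    · intro b _ hb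
      simp [Ne.symm hb]
    · simp
    · intro b _ hb
      simp [Ne.symm hb]
    · simp
    · intro b _ hb
      simp [Ne.symm hb]
    · simp
  have e12 : ∀ p q r t : Fin 4, 12 * ∑ s : Perm (Fin 4),
      ((Perm.sign s : ℤ) * (if s 0 = p ∧ s 1 = q ∧ s 2 = r ∧ s 3 = t then 1 else 0) : ℤ)
      = ((q.val : ℤ) - p.val) * ((r.val : ℤ) - p.val) * ((t.val : ℤ) - p.val) *
        ((r.val : ℤ) - q.val) * ((t.val : ℤ) - q.val) * ((t.val : ℤ) - r.val) := by
    decide +kernel
  have e12' : ∀ p q r t : Fin 4, ∑ s : Perm (Fin 4),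
      (((Perm.sign s : ℤ) * (if s 0 = p ∧ s 1 = q ∧ s 2 = r ∧ s 3 = t then 1 else 0) : ℤ) : ℚ)
      = ((q.val : ℚ) - p.val) * ((r.val : ℚ) - p.val) * ((t.val : ℚ) - p.val) *
        ((r.val : ℚ) - q.val) * ((t.val : ℚ) - q.val) * ((t.val : ℚ) - r.val) / 12 := by
    intro p q r t
    have := congrArg (fun z : ℤ => (z : ℚ)) (e12 p q r t)
    push_cast at this ⊢
    linarith
  rw [Finset.sum_congr rfl (fun s _ => h s)]
  rw [Finset.sum_comm]
  have h2 : ∀ p : Fin 4, ∑ s : Perm (Fin 4), ∑ q : Fin 4, ∑ r : Fin 4, ∑ t : Fin 4,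
        (((Perm.sign s : ℤ) * (if s 0 = p ∧ s 1 = q ∧ s 2 = r ∧ s 3 = t then 1 else 0) : ℤ) : ℚ)
          * F p q r t = ∑ q : Fin 4, ∑ r : Fin 4, ∑ t : Fin 4,
        (((q.val : ℚ) - p.val) * ((r.val : ℚ) - p.val) * ((t.val : ℚ) - p.val) *
        ((r.val : ℚ) - q.val) * ((t.val : ℚ) - q.val) * ((t.val : ℚ) - r.val) / 12) * F p q r t := by
    intro p
    rw [Finset.sum_comm]
    refine Finset.sum_congr rfl (fun q _ => ?_)
    rw [Finset.sum_comm]
    refine Finset.sum_congr rfl (fun r _ => ?_)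
    rw [Finset.sum_comm]
    refine Finset.sum_congr rfl (fun t _ => ?_)
    rw [← Finset.sum_mul, e12']
  rw [Finset.sum_congr rfl (fun p _ => h2 p)]
  simp only [Fin.sum_univ_four]
  norm_num
  ring

/-- **Period formula**, explicit form. -/
theorem period_formula' (m : ℕ) (hm : 0 < m) (e : Fin 4 → V) (he : ∀ i, m • e i = 0)
    (hgen : AddSubgroup.closure (Set.range e) = ⊤) (hcard : Fintype.card V = m ^ 4)
    (c c' : V → V → V → ℚ)
    (hc : CubeCocycle e c) (hc' : CubeCocycle e c') (v v' : V) :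
    ev4 e (cup22 c c') =
      per m e c 0 1 v * per m e c' 2 3 v' - per m e c 0 2 v * per m e c' 1 3 v'
      + per m e c 0 3 v * per m e c' 1 2 v' + per m e c 1 2 v * per m e c' 0 3 v'
      - per m e c 1 3 v * per m e c' 0 2 v' + per m e c 2 3 v * per m e c' 0 1 v' := by
  have h := period_formula m hm e he hgen hcard c c' hc hc' v v'
  rw [eps_sum (fun p q r t => per m e c p q v * per m e c' r t v')] at h
  rw [per_antisymm m e c 0 1 v, per_antisymm m e c 0 2 v, per_antisymm m e c 0 3 v,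
    per_antisymm m e c 1 2 v, per_antisymm m e c 1 3 v, per_antisymm m e c 2 3 v,
    per_antisymm m e c' 0 1 v', per_antisymm m e c' 0 2 v', per_antisymm m e c' 0 3 v',
    per_antisymm m e c' 1 2 v', per_antisymm m e c' 1 3 v', per_antisymm m e c' 2 3 v'] at h
  linarith

end Alg

section Grid

/-- the basis vectors of `(ℤ/m)^4` -/
def bas (m : ℕ) (i : Fin 4) : Fin 4 → ZMod m := Pi.single i 1

lemma smul_bas (m : ℕ) (i : Fin 4) : m • bas m i = 0 := by
  unfold bas
  ext j
  simp

lemma closure_bas (m : ℕ) [NeZero m] : AddSubgroup.closure (Set.range (bas m)) = ⊤ := by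
  rw [eq_top_iff]
  intro u _
  have h : u = ∑ i, (u i).val • bas m i := by
    ext j
    rw [Finset.sum_apply, Finset.sum_eq_single j]
    · simp [bas]
    · intro b _ hb
      simp [bas, Ne.symm hb]
    · simp
  rw [h]
  refine AddSubgroup.sum_mem _ (fun i _ => ?_)
  exact AddSubgroup.nsmul_mem _ (AddSubgroup.subset_closure (Set.mem_range_self i)) _

lemma card_grid (m : ℕ) [NeZero m] : Fintype.card (Fin 4 → ZMod m) = m ^ 4 := by
  rw [Fintype.card_fun, ZMod.card, Fintype.card_fin]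

end Grid

end K3B
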