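import Mathlib
import Pool.Agent.helper81.K3B.Torus

/-!
# Alexander–Spanier cochains on a space, evaluated on a continuous 4-torus
-/

namespace K3B

open Finset Filter Topology

/-- eventually, in the sense of divisibility -/
def Ev (P : ℕ → Prop) : Prop := ∃ M : ℕ, 0 < M ∧ ∀ m : ℕ, 0 < m → M ∣ m → P m

lemma Ev.and {P Q : ℕ → Prop} (hP : Ev P) (hQ : Ev Q) : Ev (fun m => P m ∧ Q m) := by
  obtain ⟨M, hM, h1⟩ := hP
  obtain ⟨N, hN, h2⟩ := hQ
  exact ⟨M * N, Nat.mul_pos hM hN, fun m hm hd =>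
    ⟨h1 m hm (dvd_trans (dvd_mul_right _ _) hd), h2 m hm (dvd_trans (dvd_mul_left _ _) hd)⟩⟩

lemma Ev.mono {P Q : ℕ → Prop} (hP : Ev P) (h : ∀ m, 0 < m → P m → Q m) : Ev Q := by
  obtain ⟨M, hM, h1⟩ := hP
  exact ⟨M, hM, fun m hm hd => h m hm (h1 m hm hd)⟩

lemma Ev.exists {P : ℕ → Prop} (hP : Ev P) : ∃ m, 0 < m ∧ P m := by
  obtain ⟨M, hM, h1⟩ := hP
  exact ⟨M, hM, h1 M hM dvd_rfl⟩

lemma Ev.of_ge {P : ℕ → Prop} (N : ℕ) (h : ∀ m, N ≤ m → P m) : Ev P :=
  ⟨N + 1, Nat.succ_pos _, fun m hm hd => h m (le_trans (Nat.le_succ _) (Nat.le_of_dvd hm hd))⟩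

lemma Ev.of_dvd {P : ℕ → Prop} (M : ℕ) (hM : 0 < M) (h : ∀ m, 0 < m → M ∣ m → P m) : Ev P :=
  ⟨M, hM, h⟩

section Space

variable {X : Type*} [TopologicalSpace X]

/-- locally zero 1-cochains -/
def LZ1 (c : X → X → ℚ) : Prop := ∀ x, ∃ U ∈ 𝓝 x, ∀ p ∈ U, ∀ q ∈ U, c p q = 0

/-- locally zero 2-cochains -/
def LZ2 (c : X → X → X → ℚ) : Prop :=
  ∀ x, ∃ U ∈ 𝓝 x, ∀ p ∈ U, ∀ q ∈ U, ∀ r ∈ U, c p q r = 0

/-- locally zero 3-cochains -/
def LZ3 (c : X → X → X → X → ℚ) : Prop :=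
  ∀ x, ∃ U ∈ 𝓝 x, ∀ p ∈ U, ∀ q ∈ U, ∀ r ∈ U, ∀ s ∈ U, c p q r s = 0

/-- locally zero 4-cochains -/
def LZ4 (c : X → X → X → X → X → ℚ) : Prop :=
  ∀ x, ∃ U ∈ 𝓝 x, ∀ p ∈ U, ∀ q ∈ U, ∀ r ∈ U, ∀ s ∈ U, ∀ t ∈ U, c p q r s t = 0

/-- 1-periodic maps on `ℝ^4` -/
def Per4 (F : (Fin 4 → ℝ) → X) : Prop :=
  ∀ (t : Fin 4 → ℝ) (n : Fin 4 → ℤ), F (t + fun i => (n i : ℝ)) = F t

/-- Lebesgue number for periodic maps -/
lemma lebesgue4 (F : (Fin 4 → ℝ) → X) (hF : Continuous F) (hper : Per4 F)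
    (P : Set X → Prop) (hanti : ∀ U V : Set X, V ⊆ U → P U → P V)
    (h : ∀ x, ∃ U ∈ 𝓝 x, P U) :
    ∃ δ > 0, ∀ t, P (F '' Metric.ball t δ) := by
  choose U hU hPU using h
  have hK : IsCompact (Set.Icc (0 : Fin 4 → ℝ) 1) := isCompact_Icc
  obtain ⟨δ, hδ, hleb⟩ := lebesgue_number_lemma_of_metric (c := fun x : X => F ⁻¹' interior (U x))
    hK (fun x => isOpen_interior.preimage hF) (by
      intro t _
      exact Set.mem_iUnion.2 ⟨F t, mem_interior_iff_mem_nhds.2 (hU (F t))⟩)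
  refine ⟨δ, hδ, fun t => ?_⟩
  set n : Fin 4 → ℤ := fun i => ⌊t i⌋ with hn
  have hmem : (fun i => Int.fract (t i)) ∈ Set.Icc (0 : Fin 4 → ℝ) 1 :=
    ⟨fun i => Int.fract_nonneg _, fun i => (Int.fract_lt_one _).le⟩
  obtain ⟨x, hx⟩ := hleb _ hmem
  refine hanti (U x) _ ?_ (hPU x)
  rintro _ ⟨t', ht', rfl⟩
  have h1 : F t' = F (fun i => t' i - n i) := by
    have := hper (fun i => t' i - n i) n
    rw [← this]
    congr 1
    ext i
    simp
  rw [h1]
  apply interior_subset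
  apply hx
  rw [Metric.mem_ball] at ht' ⊢
  have h2 : dist (fun i => t' i - (n i : ℝ)) (fun i => Int.fract (t i)) = dist t' t := by
    have ha : (fun i => t' i - (n i : ℝ)) = t' + (fun i => -(n i : ℝ)) := by
      ext i; simp [sub_eq_add_neg]
    have hb : (fun i => Int.fract (t i)) = t + (fun i => -(n i : ℝ)) := by
      ext i; simp [hn, Int.fract, sub_eq_add_neg]
    rw [ha, hb, dist_add_right]
  rw [h2]
  exact ht'

/-- the grid map -/
noncomputable def grid (F : (Fin 4 → ℝ) → X) (m : ℕ) (v : Fin 4 → ZMod m) : X :=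
  F (fun i => ((v i).val : ℝ) / m)

omit [TopologicalSpace X] in
lemma grid_cast (F : (Fin 4 → ℝ) → X) (hper : Per4 F) (m : ℕ) [NeZero m] (N : Fin 4 → ℕ) :
    grid F m (fun i => ((N i : ℕ) : ZMod m)) = F (fun i => (N i : ℝ) / m) := by
  have hm : (m : ℝ) ≠ 0 := Nat.cast_ne_zero.2 (NeZero.ne m)
  unfold grid
  have := hper (fun i => ((((N i : ℕ) : ZMod m)).val : ℝ) / m) (fun i => ((N i / m : ℕ) : ℤ))
  rw [← this]
  congr 1
  ext i
  simp only [Pi.add_apply]
  rw [ZMod.val_natCast]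
  have h1 : (N i : ℝ) = ((N i % m : ℕ) : ℝ) + (m : ℝ) * ((N i / m : ℕ) : ℝ) := by
    exact_mod_cast (Nat.mod_add_div (N i) m).symm
  have h2 : (((N i / m : ℕ) : ℤ) : ℝ) = ((N i / m : ℕ) : ℝ) := Int.cast_natCast _
  rw [h2, h1]
  field_simp

omit [TopologicalSpace X] in
lemma grid_add (F : (Fin 4 → ℝ) → X) (hper : Per4 F) (m : ℕ) [NeZero m]
    (v : Fin 4 → ZMod m) (N : Fin 4 → ℕ) :
    grid F m (v + fun i => ((N i : ℕ) : ZMod m)) = F (fun i => (((v i).val : ℝ) + N i) / m) := by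
  have := grid_cast F hper m (fun i => (v i).val + N i)
  push_cast at this
  rw [← this]
  congr 1
  ext i
  simp

/-- pull back -/
def pull2 {Y Z : Type*} (g : Y → Z) (c : Z → Z → Z → ℚ) (p q r : Y) : ℚ := c (g p) (g q) (g r)

/-- pull back -/
def pull3 {Y Z : Type*} (g : Y → Z) (c : Z → Z → Z → Z → ℚ) (p q r s : Y) : ℚ :=
  c (g p) (g q) (g r) (g s)

/-- pull back -/
def pull4 {Y Z : Type*} (g : Y → Z) (c : Z → Z → Z → Z → Z → ℚ) (p q r s t : Y) : ℚ :=
  c (g p) (g q) (g r) (g s) (g t)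

omit [TopologicalSpace X] in
lemma grid_near (F : (Fin 4 → ℝ) → X) (hper : Per4 F) (m : ℕ) [NeZero m] {δ : ℝ}
    (hm : 4 < δ * m) (v : Fin 4 → ZMod m) (N : Fin 4 → ℕ) (hN : ∀ i, N i ≤ 4) :
    grid F m (v + fun i => ((N i : ℕ) : ZMod m)) ∈
      F '' Metric.ball (fun i => ((v i).val : ℝ) / m) δ := by
  have hm0 : (0 : ℝ) < m := Nat.cast_pos.2 (Nat.pos_of_ne_zero (NeZero.ne m))
  have hδ : 0 < δ := by
    by_contra h
    push Not at h
    have : δ * m ≤ 0 := mul_nonpos_of_nonpos_of_nonneg h hm0.le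
    linarith
  rw [grid_add F hper]
  refine ⟨_, ?_, rfl⟩
  rw [Metric.mem_ball, dist_pi_lt_iff hδ]
  intro i
  rw [Real.dist_eq, add_div, add_sub_cancel_left, abs_of_nonneg (by positivity)]
  rw [div_lt_iff₀ hm0]
  have : (N i : ℝ) ≤ 4 := by exact_mod_cast hN i
  linarith

omit [TopologicalSpace X] in
lemma bas_cast (m : ℕ) (i : Fin 4) :
    bas m i = fun j => (((Pi.single i 1 : Fin 4 → ℕ) j : ℕ) : ZMod m) := by
  ext j
  by_cases h : j = i
  · subst h; simp [bas]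
  · simp [bas, h]

omit [TopologicalSpace X] in
/-- the four kinds of points of a Kuhn path -/
lemma path_near (F : (Fin 4 → ℝ) → X) (hper : Per4 F) (m : ℕ) [NeZero m] {δ : ℝ}
    (hm : 4 < δ * m) (v : Fin 4 → ZMod m) :
    (grid F m v ∈ F '' Metric.ball (fun i => ((v i).val : ℝ) / m) δ) ∧
    (∀ i, grid F m (v + bas m i) ∈ F '' Metric.ball (fun i => ((v i).val : ℝ) / m) δ) ∧
    (∀ i j, grid F m (v + bas m i + bas m j) ∈ F '' Metric.ball (fun i => ((v i).val : ℝ) / m) δ) ∧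
    (∀ i j k, grid F m (v + bas m i + bas m j + bas m k) ∈
      F '' Metric.ball (fun i => ((v i).val : ℝ) / m) δ) ∧
    (∀ i j k l, grid F m (v + bas m i + bas m j + bas m k + bas m l) ∈
      F '' Metric.ball (fun i => ((v i).val : ℝ) / m) δ) := by
  have hs : ∀ i j : Fin 4, (Pi.single i 1 : Fin 4 → ℕ) j ≤ 1 := by
    intro i j
    by_cases h : j = i
    · subst h; simp
    · simp [h]
  refine ⟨?_, ?_, ?_, ?_, ?_⟩
  · have := grid_near F hper m hm v (fun _ => 0) (fun _ => Nat.zero_le _)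
    have h0 : (v + fun _ => ((0 : ℕ) : ZMod m)) = v := by ext; simp
    rwa [h0] at this
  · intro i
    have := grid_near F hper m hm v (Pi.single i 1) (fun l => by have := hs i l; omega)
    rwa [← bas_cast] at this
  · intro i j
    have := grid_near F hper m hm v (Pi.single i 1 + Pi.single j 1) (fun l => by
      have h1 := hs i l
      have h2 := hs j l
      simp only [Pi.add_apply]
      omega)
    have h0 : (v + fun l => (((Pi.single i 1 + Pi.single j 1 : Fin 4 → ℕ) l : ℕ) : ZMod m))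
        = v + bas m i + bas m j := by
      rw [bas_cast, bas_cast]
      ext l
      simp [add_assoc]
    rwa [h0] at this
  · intro i j k
    have := grid_near F hper m hm v (Pi.single i 1 + Pi.single j 1 + Pi.single k 1) (fun l => by
      have h1 := hs i l
      have h2 := hs j l
      have h3 := hs k l
      simp only [Pi.add_apply]
      omega)
    have h0 : (v + fun l => (((Pi.single i 1 + Pi.single j 1 + Pi.single k 1 : Fin 4 → ℕ) l : ℕ)
        : ZMod m)) = v + bas m i + bas m j + bas m k := by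
      rw [bas_cast, bas_cast, bas_cast]
      ext l
      simp [add_assoc]
    rwa [h0] at this
  · intro i j k l
    have := grid_near F hper m hm v
      (Pi.single i 1 + Pi.single j 1 + Pi.single k 1 + Pi.single l 1) (fun a => by
      have h1 := hs i a
      have h2 := hs j a
      have h3 := hs k a
      have h4 := hs l a
      simp only [Pi.add_apply]
      omega)
    have h0 : (v + fun a => (((Pi.single i 1 + Pi.single j 1 + Pi.single k 1 + Pi.single l 1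
        : Fin 4 → ℕ) a : ℕ) : ZMod m)) = v + bas m i + bas m j + bas m k + bas m l := by
      rw [bas_cast, bas_cast, bas_cast, bas_cast]
      ext a
      simp [add_assoc]
    rwa [h0] at this

lemma ev_of_delta {P : ℕ → Prop} {δ : ℝ} (hδ : 0 < δ)
    (h : ∀ m : ℕ, 0 < m → 4 < δ * m → P m) : Ev P := by
  obtain ⟨N, hN⟩ := exists_nat_gt (4 / δ)
  refine Ev.of_ge (N + 1) (fun m hm => h m (by omega) ?_)
  have : (4 / δ) < m := lt_of_lt_of_le hN (by exact_mod_cast (by omega : N ≤ m))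
  rw [div_lt_iff₀ hδ] at this
  linarith [mul_comm δ (m : ℝ)]

theorem ev_cubeCocycle (F : (Fin 4 → ℝ) → X) (hF : Continuous F) (hper : Per4 F)
    (c : X → X → X → ℚ) (hc : LZ3 (d2 c)) :
    Ev (fun m => CubeCocycle (bas m) (pull2 (grid F m) c)) := by
  obtain ⟨δ, hδ, h⟩ := lebesgue4 F hF hper
    (fun U => ∀ p ∈ U, ∀ q ∈ U, ∀ r ∈ U, ∀ s ∈ U, d2 c p q r s = 0)
    (fun U V hVU hU p hp q hq r hr s hs => hU p (hVU hp) q (hVU hq) r (hVU hr) s (hVU hs)) hc
  refine ev_of_delta hδ (fun m hm hm4 => ?_)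
  have : NeZero m := ⟨hm.ne'⟩
  intro v i j k _ _ _
  obtain ⟨h0, h1, h2, h3, _⟩ := path_near F hper m hm4 v
  exact h _ _ h0 _ (h1 i) _ (h2 i j) _ (h3 i j k)

theorem ev_ev4_zero (F : (Fin 4 → ℝ) → X) (hF : Continuous F) (hper : Per4 F)
    (w : X → X → X → X → X → ℚ) (hw : LZ4 w) :
    Ev (fun m => ∀ [NeZero m], ev4 (bas m) (pull4 (grid F m) w) = 0) := by
  obtain ⟨δ, hδ, h⟩ := lebesgue4 F hF hper
    (fun U => ∀ p ∈ U, ∀ q ∈ U, ∀ r ∈ U, ∀ s ∈ U, ∀ t ∈ U, w p q r s t = 0)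
    (fun U V hVU hU p hp q hq r hr s hs t ht =>
      hU p (hVU hp) q (hVU hq) r (hVU hr) s (hVU hs) t (hVU ht)) hw
  refine ev_of_delta hδ (fun m hm hm4 => ?_)
  intro _
  unfold ev4
  refine Finset.sum_eq_zero (fun v _ => Finset.sum_eq_zero (fun s _ => ?_))
  obtain ⟨h0, h1, h2, h3, h4⟩ := path_near F hper m hm4 v
  unfold pull4
  rw [h _ _ h0 _ (h1 _) _ (h2 _ _) _ (h3 _ _ _) _ (h4 _ _ _ _), mul_zero]

theorem ev_ev4_coboundary (F : (Fin 4 → ℝ) → X) (hF : Continuous F) (hper : Per4 F)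
    (w : X → X → X → X → X → ℚ) (b : X → X → X → X → ℚ)
    (hw : LZ4 (fun p q r s t => w p q r s t - d3 b p q r s t)) :
    Ev (fun m => ∀ [NeZero m], ev4 (bas m) (pull4 (grid F m) w) = 0) := by
  refine (ev_ev4_zero F hF hper _ hw).mono (fun m hm h => ?_)
  intro _
  have h1 := h
  have h2 := ev4_d3 (bas m) (pull3 (grid F m) b)
  have h3 : ev4 (bas m) (pull4 (grid F m) (fun p q r s t => w p q r s t - d3 b p q r s t))
      = ev4 (bas m) (pull4 (grid F m) w) - ev4 (bas m) (d3 (pull3 (grid F m) b)) := by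
    unfold ev4
    rw [← Finset.sum_sub_distrib]
    refine Finset.sum_congr rfl (fun v _ => ?_)
    rw [← Finset.sum_sub_distrib]
    refine Finset.sum_congr rfl (fun s _ => ?_)
    unfold pull4 d3 pull3
    ring
  rw [h3, h2, sub_zero] at h1
  exact h1

/-- evaluation on a 2-torus given by a map `G : ℝ → ℝ → X` -/
noncomputable def per2 (m : ℕ) (G : ℝ → ℝ → X) (c : X → X → X → ℚ) : ℚ :=
  ∑ a ∈ range m, ∑ b ∈ range m,
    (c (G ((a : ℝ) / m) ((b : ℝ) / m)) (G (((a : ℝ) + 1) / m) ((b : ℝ) / m))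
        (G (((a : ℝ) + 1) / m) (((b : ℝ) + 1) / m))
      - c (G ((a : ℝ) / m) ((b : ℝ) / m)) (G ((a : ℝ) / m) (((b : ℝ) + 1) / m))
        (G (((a : ℝ) + 1) / m) (((b : ℝ) + 1) / m)))

/-- coordinate 2-tori -/
def slice (F : (Fin 4 → ℝ) → X) (i j : Fin 4) (t : Fin 4 → ℝ) (x y : ℝ) : X :=
  F (fun l => t l + x * (Pi.single i (1 : ℝ) : Fin 4 → ℝ) l
    + y * (Pi.single j (1 : ℝ) : Fin 4 → ℝ) l)

/-- rational base point, compatible with the grid -/
def OnGrid (m : ℕ) (t : Fin 4 → ℝ) : Prop := ∃ N : Fin 4 → ℕ, ∀ l, (N l : ℝ) = m * t l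

omit [TopologicalSpace X] in
lemma per_eq_per2 (F : (Fin 4 → ℝ) → X) (hper : Per4 F) (m : ℕ) [NeZero m]
    (c : X → X → X → ℚ) (i j : Fin 4) (t : Fin 4 → ℝ) (N : Fin 4 → ℕ)
    (hN : ∀ l, (N l : ℝ) = m * t l) :
    per m (bas m) (pull2 (grid F m) c) i j (fun l => ((N l : ℕ) : ZMod m))
      = per2 m (slice F i j t) c := by
  have hm0 : (m : ℝ) ≠ 0 := Nat.cast_ne_zero.2 (NeZero.ne m)
  -- the grid points
  have hpt : ∀ x y : ℕ, grid F m ((fun l => ((N l : ℕ) : ZMod m)) + x • bas m i + y • bas m j)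
      = slice F i j t ((x : ℝ) / m) ((y : ℝ) / m) := by
    intro x y
    have := grid_cast F hper m (fun l => N l + x * (Pi.single i 1 : Fin 4 → ℕ) l
      + y * (Pi.single j 1 : Fin 4 → ℕ) l)
    have h1 : (fun l => (((N l + x * (Pi.single i 1 : Fin 4 → ℕ) l
      + y * (Pi.single j 1 : Fin 4 → ℕ) l : ℕ)) : ZMod m))
        = (fun l => ((N l : ℕ) : ZMod m)) + x • bas m i + y • bas m j := by
      rw [bas_cast, bas_cast]
      ext l
      simp
    rw [h1] at this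
    rw [this]
    unfold slice
    congr 1
    ext l
    have h2 : ((Pi.single i 1 : Fin 4 → ℕ) l : ℝ) = (Pi.single i (1 : ℝ) : Fin 4 → ℝ) l := by
      by_cases h : l = i
      · subst h; simp
      · simp [h]
    have h3 : ((Pi.single j 1 : Fin 4 → ℕ) l : ℝ) = (Pi.single j (1 : ℝ) : Fin 4 → ℝ) l := by
      by_cases h : l = j
      · subst h; simp
      · simp [h]
    push_cast
    rw [h2, h3, hN l]
    field_simp
  unfold per per2
  refine Finset.sum_congr rfl (fun x _ => Finset.sum_congr rfl (fun y _ => ?_))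
  unfold sq pull2
  have p0 := hpt x y
  have p1 := hpt (x + 1) y
  have p2 := hpt (x + 1) (y + 1)
  have p3 := hpt x (y + 1)
  have q1 : (fun l => ((N l : ℕ) : ZMod m)) + (x + 1) • bas m i + y • bas m j
      = (fun l => ((N l : ℕ) : ZMod m)) + x • bas m i + y • bas m j + bas m i := by
    rw [add_smul, one_smul]; abel
  have q2 : (fun l => ((N l : ℕ) : ZMod m)) + (x + 1) • bas m i + (y + 1) • bas m j
      = (fun l => ((N l : ℕ) : ZMod m)) + x • bas m i + y • bas m j + bas m i + bas m j := by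
    rw [add_smul, one_smul, add_smul, one_smul]; abel
  have q3 : (fun l => ((N l : ℕ) : ZMod m)) + x • bas m i + (y + 1) • bas m j
      = (fun l => ((N l : ℕ) : ZMod m)) + x • bas m i + y • bas m j + bas m j := by
    rw [add_smul, one_smul]; abel
  rw [q1] at p1
  rw [q2] at p2
  rw [q3] at p3
  have q4 : (fun l => ((N l : ℕ) : ZMod m)) + x • bas m i + y • bas m j + bas m j + bas m i
      = (fun l => ((N l : ℕ) : ZMod m)) + x • bas m i + y • bas m j + bas m i + bas m j :=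
    add_right_comm _ _ _
  rw [q4, p0, p1, p2, p3]
  push_cast
  rfl

/-- a base point with rational coordinates `>= 0` is eventually on the grid -/
lemma ev_onGrid (t : Fin 4 → ℝ) (K : ℕ) (hK : 0 < K) (N : Fin 4 → ℕ)
    (hN : ∀ l, (N l : ℝ) = K * t l) : Ev (fun m => OnGrid m t) := by
  refine Ev.of_dvd K hK (fun m hm hd => ?_)
  obtain ⟨k, rfl⟩ := hd
  refine ⟨fun l => k * N l, fun l => ?_⟩
  push_cast
  rw [hN l]
  ring

lemma ev_onGrid_zero : Ev (fun m => OnGrid m (fun _ => 0)) :=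
  ev_onGrid _ 1 one_pos (fun _ => 0) (fun l => by simp)

/-- periods do not depend on the base point -/
theorem ev_base_indep (F : (Fin 4 → ℝ) → X) (hF : Continuous F) (hper : Per4 F)
    (c : X → X → X → ℚ) (hc : LZ3 (d2 c)) (i j : Fin 4) (t t' : Fin 4 → ℝ)
    (ht : Ev (fun m => OnGrid m t)) (ht' : Ev (fun m => OnGrid m t')) :
    Ev (fun m => per2 m (slice F i j t) c = per2 m (slice F i j t') c) := by
  refine ((ev_cubeCocycle F hF hper c hc).and (ht.and ht')).mono (fun m hm h => ?_)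
  obtain ⟨h1, ⟨N, hN⟩, ⟨N', hN'⟩⟩ := h
  have : NeZero m := ⟨hm.ne'⟩
  rw [← per_eq_per2 F hper m c i j t N hN, ← per_eq_per2 F hper m c i j t' N' hN']
  exact per_const m (bas m) (smul_bas m) (closure_bas m) _ h1 i j _ _

/-- **Main tool**: the cup product of two cocycles is not a coboundary if the six periods say so. -/
theorem cup_not_coboundary (F : (Fin 4 → ℝ) → X) (hF : Continuous F) (hper : Per4 F)
    (c c' : X → X → X → ℚ) (hc : LZ3 (d2 c)) (hc' : LZ3 (d2 c'))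
    (h : ∀ M : ℕ, 0 < M → ∃ m, 0 < m ∧ M ∣ m ∧
      per2 m (slice F 0 1 0) c * per2 m (slice F 2 3 0) c'
      - per2 m (slice F 0 2 0) c * per2 m (slice F 1 3 0) c'
      + per2 m (slice F 0 3 0) c * per2 m (slice F 1 2 0) c'
      + per2 m (slice F 1 2 0) c * per2 m (slice F 0 3 0) c'
      - per2 m (slice F 1 3 0) c * per2 m (slice F 0 2 0) c'
      + per2 m (slice F 2 3 0) c * per2 m (slice F 0 1 0) c' ≠ 0)
    (b : X → X → X → X → ℚ) :
    ¬ LZ4 (fun p q r s t => cup22 c c' p q r s t - d3 b p q r s t) := by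
  intro hb
  obtain ⟨M, hM, h1⟩ := ((ev_cubeCocycle F hF hper c hc).and
    ((ev_cubeCocycle F hF hper c' hc').and (ev_ev4_coboundary F hF hper _ b hb)))
  obtain ⟨m, hm, hMm, hne⟩ := h M hM
  have : NeZero m := ⟨hm.ne'⟩
  obtain ⟨g1, g2, g3⟩ := h1 m hm hMm
  have hz : ∀ l : Fin 4, (((fun _ => 0 : Fin 4 → ℕ) l : ℕ) : ℝ) = m * (0 : Fin 4 → ℝ) l := by
    intro l; simp
  have hp := period_formula' m hm (bas m) (smul_bas m) (closure_bas m) (card_grid m)
    (pull2 (grid F m) c) (pull2 (grid F m) c') g1 g2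
    (fun l => (((fun _ => 0 : Fin 4 → ℕ) l : ℕ) : ZMod m))
    (fun l => (((fun _ => 0 : Fin 4 → ℕ) l : ℕ) : ZMod m))
  have e1 : ∀ i j, per m (bas m) (pull2 (grid F m) c) i j
      (fun l => (((fun _ => 0 : Fin 4 → ℕ) l : ℕ) : ZMod m)) = per2 m (slice F i j 0) c :=
    fun i j => per_eq_per2 F hper m c i j 0 _ hz
  have e2 : ∀ i j, per m (bas m) (pull2 (grid F m) c') i j
      (fun l => (((fun _ => 0 : Fin 4 → ℕ) l : ℕ) : ZMod m)) = per2 m (slice F i j 0) c' :=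
    fun i j => per_eq_per2 F hper m c' i j 0 _ hz
  simp only [e1, e2] at hp
  apply hne
  rw [← hp]
  exact g3

end Space

end K3B
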