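import Mathlib
import Pool.Agent.helper81.K3B.TorusTop

/-!
# Locally vanishing 2-cocycles have zero mixed periods
-/

namespace K3B

open Finset Filter Topology

lemma Ev.forall_lt {P : ℕ → ℕ → Prop} (n : ℕ) (h : ∀ j < n, Ev (P j)) :
    Ev (fun m => ∀ j < n, P j m) := by
  induction n with
  | zero => exact ⟨1, one_pos, fun m _ _ j hj => absurd hj (Nat.not_lt_zero j)⟩
  | succ n ih =>
    refine ((ih (fun j hj => h j (Nat.lt_succ_of_lt hj))).and (h n (Nat.lt_succ_self n))).mono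
      (fun m _ hm j hj => ?_)
    rcases Nat.lt_succ_iff_lt_or_eq.1 hj with h1 | h1
    · exact hm.1 j h1
    · subst h1; exact hm.2

section Space

variable {X : Type*} [TopologicalSpace X]

/-- period of a 1-cochain on a loop, with `m` grid points -/
noncomputable def per1 (m : ℕ) (g : ℝ → X) (ψ : X → X → ℚ) : ℚ :=
  ∑ a ∈ range m, ψ (g ((a : ℝ) / m)) (g (((a : ℝ) + 1) / m))

omit [TopologicalSpace X] in
/-- value of `d1 ψ` on a square, summed over a row -/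
lemma row_sum (m : ℕ) (hm : 0 < m) (G : ℝ → ℝ → X) (hx : ∀ x y, G (x + 1) y = G x y)
    (ψ : X → X → ℚ) (y y' : ℝ) :
    ∑ a ∈ range m, (d1 ψ (G ((a : ℝ) / m) y) (G (((a : ℝ) + 1) / m) y) (G (((a : ℝ) + 1) / m) y')
      - d1 ψ (G ((a : ℝ) / m) y) (G ((a : ℝ) / m) y') (G (((a : ℝ) + 1) / m) y'))
    = per1 m (fun x => G x y) ψ - per1 m (fun x => G x y') ψ := by
  have hm0 : (m : ℝ) ≠ 0 := by positivity
  have h1 : ∑ a ∈ range m, (ψ (G (((a : ℝ) + 1) / m) y) (G (((a : ℝ) + 1) / m) y')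
      - ψ (G ((a : ℝ) / m) y) (G ((a : ℝ) / m) y')) = 0 := by
    have := Finset.sum_range_sub (fun a : ℕ => ψ (G ((a : ℝ) / m) y) (G ((a : ℝ) / m) y')) m
    push_cast at this
    rw [this]
    have e1 : (m : ℝ) / m = 0 + 1 := by rw [div_self hm0, zero_add]
    rw [e1, hx, hx, zero_div, sub_self]
  unfold per1
  rw [← Finset.sum_sub_distrib]
  have h2 : ∀ a ∈ range m,
      (d1 ψ (G ((a : ℝ) / m) y) (G (((a : ℝ) + 1) / m) y) (G (((a : ℝ) + 1) / m) y')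
      - d1 ψ (G ((a : ℝ) / m) y) (G ((a : ℝ) / m) y') (G (((a : ℝ) + 1) / m) y'))
      = (ψ (G ((a : ℝ) / m) y) (G (((a : ℝ) + 1) / m) y)
        - ψ (G ((a : ℝ) / m) y') (G (((a : ℝ) + 1) / m) y'))
        + (ψ (G (((a : ℝ) + 1) / m) y) (G (((a : ℝ) + 1) / m) y')
      - ψ (G ((a : ℝ) / m) y) (G ((a : ℝ) / m) y')) := by
    intro a _
    unfold d1
    ring
  rw [Finset.sum_congr rfl h2, Finset.sum_add_distrib, h1, add_zero]

/-- Lebesgue number on a rectangle -/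
lemma lebesgue_rect (G : ℝ → ℝ → X) (hG : Continuous (fun z : ℝ × ℝ => G z.1 z.2))
    (y0 y1 : ℝ) (P : Set X → Prop) (hanti : ∀ U V : Set X, V ⊆ U → P U → P V)
    (h : ∀ x y, x ∈ Set.Icc (0 : ℝ) 1 → y ∈ Set.Icc y0 y1 → ∃ U ∈ 𝓝 (G x y), P U) :
    ∃ δ > 0, ∀ x y, x ∈ Set.Icc (0 : ℝ) 1 → y ∈ Set.Icc y0 y1 →
      P ((fun z : ℝ × ℝ => G z.1 z.2) '' Metric.ball (x, y) δ) := by
  have h' : ∀ z : (Set.Icc (0 : ℝ) 1 ×ˢ Set.Icc y0 y1 : Set (ℝ × ℝ)),
      ∃ U ∈ 𝓝 (G z.1.1 z.1.2), P U := fun z => h _ _ z.2.1 z.2.2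
  choose U hU hPU using h'
  have hK : IsCompact (Set.Icc (0 : ℝ) 1 ×ˢ Set.Icc y0 y1 : Set (ℝ × ℝ)) :=
    isCompact_Icc.prod isCompact_Icc
  obtain ⟨δ, hδ, hleb⟩ := lebesgue_number_lemma_of_metric
    (c := fun z : (Set.Icc (0 : ℝ) 1 ×ˢ Set.Icc y0 y1 : Set (ℝ × ℝ)) =>
      (fun z : ℝ × ℝ => G z.1 z.2) ⁻¹' interior (U z))
    hK (fun x => isOpen_interior.preimage hG) (by
      intro t ht
      exact Set.mem_iUnion.2 ⟨⟨t, ht⟩, mem_interior_iff_mem_nhds.2 (hU ⟨t, ht⟩)⟩)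
  refine ⟨δ, hδ, fun x y hx hy => ?_⟩
  obtain ⟨z, hz⟩ := hleb (x, y) ⟨hx, hy⟩
  refine hanti (U z) _ ?_ (hPU z)
  rintro _ ⟨w, hw, rfl⟩
  exact interior_subset (hz hw)

/-- the cochain `k` equals `d1 ψ` near the points of `O` -/
def EqOnNear (O : Set X) (k : X → X → X → ℚ) (ψ : X → X → ℚ) : Prop :=
  ∀ x ∈ O, ∃ W ∈ 𝓝 x, ∀ p ∈ W, ∀ q ∈ W, ∀ r ∈ W, k p q r = d1 ψ p q r

/-- a strip: the sum over the rows `b` in `[j m', (j+1) m')` telescopes -/
lemma strip (G : ℝ → ℝ → X) (hG : Continuous (fun z : ℝ × ℝ => G z.1 z.2))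
    (hx : ∀ x y, G (x + 1) y = G x y) (k : X → X → X → ℚ) (ψ : X → X → ℚ)
    (M j : ℕ) (hM : 0 < M)
    (h : ∀ x y, y ∈ Set.Icc ((j : ℝ) / M) (((j : ℝ) + 1) / M) →
      ∃ W ∈ 𝓝 (G x y), ∀ p ∈ W, ∀ q ∈ W, ∀ r ∈ W, k p q r = d1 ψ p q r) :
    Ev (fun m' => ∑ b ∈ range m', ∑ a ∈ range (M * m'),
      (k (G ((a : ℝ) / (M * m' : ℕ)) (((j * m' + b : ℕ) : ℝ) / (M * m' : ℕ)))
          (G (((a : ℝ) + 1) / (M * m' : ℕ)) (((j * m' + b : ℕ) : ℝ) / (M * m' : ℕ)))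
          (G (((a : ℝ) + 1) / (M * m' : ℕ)) ((((j * m' + b : ℕ) : ℝ) + 1) / (M * m' : ℕ)))
        - k (G ((a : ℝ) / (M * m' : ℕ)) (((j * m' + b : ℕ) : ℝ) / (M * m' : ℕ)))
          (G ((a : ℝ) / (M * m' : ℕ)) ((((j * m' + b : ℕ) : ℝ) + 1) / (M * m' : ℕ)))
          (G (((a : ℝ) + 1) / (M * m' : ℕ)) ((((j * m' + b : ℕ) : ℝ) + 1) / (M * m' : ℕ))))
      = per1 (M * m') (fun x => G x ((j : ℝ) / M)) ψ
        - per1 (M * m') (fun x => G x (((j : ℝ) + 1) / M)) ψ) := by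
  obtain ⟨δ, hδ, hleb⟩ := lebesgue_rect G hG ((j : ℝ) / M) (((j : ℝ) + 1) / M)
    (fun W => ∀ p ∈ W, ∀ q ∈ W, ∀ r ∈ W, k p q r = d1 ψ p q r)
    (fun U V hVU hU p hp q hq r hr => hU p (hVU hp) q (hVU hq) r (hVU hr))
    (fun x y _ hy => h x y hy)
  refine ev_of_delta hδ (fun m' hm' h4 => ?_)
  have hMR : (0 : ℝ) < M := by exact_mod_cast hM
  have hm'R : (0 : ℝ) < m' := by exact_mod_cast hm'
  have hMm : 0 < M * m' := Nat.mul_pos hM hm'
  have hMmR : (0 : ℝ) < ((M * m' : ℕ) : ℝ) := by exact_mod_cast hMm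
  have hge : (m' : ℝ) ≤ ((M * m' : ℕ) : ℝ) := by
    exact_mod_cast Nat.le_mul_of_pos_left m' hM
  have hsmall : 1 / ((M * m' : ℕ) : ℝ) < δ := by
    rw [div_lt_iff₀ hMmR]
    have := mul_le_mul_of_nonneg_left hge hδ.le
    linarith
  -- replace k by d1 ψ
  have hrep : ∀ b ∈ range m', ∀ a ∈ range (M * m'),
      (k (G ((a : ℝ) / (M * m' : ℕ)) (((j * m' + b : ℕ) : ℝ) / (M * m' : ℕ)))
          (G (((a : ℝ) + 1) / (M * m' : ℕ)) (((j * m' + b : ℕ) : ℝ) / (M * m' : ℕ)))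
          (G (((a : ℝ) + 1) / (M * m' : ℕ)) ((((j * m' + b : ℕ) : ℝ) + 1) / (M * m' : ℕ)))
        - k (G ((a : ℝ) / (M * m' : ℕ)) (((j * m' + b : ℕ) : ℝ) / (M * m' : ℕ)))
          (G ((a : ℝ) / (M * m' : ℕ)) ((((j * m' + b : ℕ) : ℝ) + 1) / (M * m' : ℕ)))
          (G (((a : ℝ) + 1) / (M * m' : ℕ)) ((((j * m' + b : ℕ) : ℝ) + 1) / (M * m' : ℕ))))
      = (d1 ψ (G ((a : ℝ) / (M * m' : ℕ)) (((j * m' + b : ℕ) : ℝ) / (M * m' : ℕ)))
          (G (((a : ℝ) + 1) / (M * m' : ℕ)) (((j * m' + b : ℕ) : ℝ) / (M * m' : ℕ)))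
          (G (((a : ℝ) + 1) / (M * m' : ℕ)) ((((j * m' + b : ℕ) : ℝ) + 1) / (M * m' : ℕ)))
        - d1 ψ (G ((a : ℝ) / (M * m' : ℕ)) (((j * m' + b : ℕ) : ℝ) / (M * m' : ℕ)))
          (G ((a : ℝ) / (M * m' : ℕ)) ((((j * m' + b : ℕ) : ℝ) + 1) / (M * m' : ℕ)))
          (G (((a : ℝ) + 1) / (M * m' : ℕ)) ((((j * m' + b : ℕ) : ℝ) + 1) / (M * m' : ℕ)))) := by
    intro b hb a ha
    rw [mem_range] at hb ha
    have hx0 : ((a : ℝ) / (M * m' : ℕ)) ∈ Set.Icc (0 : ℝ) 1 := by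
      constructor
      · positivity
      · rw [div_le_one hMmR]
        exact_mod_cast ha.le
    have hy0 : (((j * m' + b : ℕ) : ℝ) / (M * m' : ℕ)) ∈
        Set.Icc ((j : ℝ) / M) (((j : ℝ) + 1) / M) := by
      constructor
      · rw [div_le_div_iff₀ hMR hMmR]
        push_cast
        have : (0 : ℝ) ≤ (b : ℝ) * M := by positivity
        nlinarith
      · rw [div_le_div_iff₀ hMmR hMR]
        push_cast
        have hb' : (b : ℝ) ≤ m' := by exact_mod_cast hb.le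
        have := mul_le_mul_of_nonneg_right hb' hMR.le
        nlinarith
    have hloc := hleb _ _ hx0 hy0
    have hd1 : dist (((a : ℝ) + 1) / ((M * m' : ℕ) : ℝ)) ((a : ℝ) / (M * m' : ℕ)) < δ := by
      rw [Real.dist_eq, add_div, add_sub_cancel_left, abs_of_pos (by positivity)]
      exact hsmall
    have hd2 : dist ((((j * m' + b : ℕ) : ℝ) + 1) / ((M * m' : ℕ) : ℝ))
        (((j * m' + b : ℕ) : ℝ) / (M * m' : ℕ)) < δ := by
      rw [Real.dist_eq, add_div, add_sub_cancel_left, abs_of_pos (by positivity)]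
      exact hsmall
    have m1 : G ((a : ℝ) / (M * m' : ℕ)) (((j * m' + b : ℕ) : ℝ) / (M * m' : ℕ)) ∈
        (fun z : ℝ × ℝ => G z.1 z.2) '' Metric.ball
          ((a : ℝ) / (M * m' : ℕ), ((j * m' + b : ℕ) : ℝ) / (M * m' : ℕ)) δ :=
      ⟨_, Metric.mem_ball_self hδ, rfl⟩
    have m2 : G (((a : ℝ) + 1) / (M * m' : ℕ)) (((j * m' + b : ℕ) : ℝ) / (M * m' : ℕ)) ∈
        (fun z : ℝ × ℝ => G z.1 z.2) '' Metric.ball
          ((a : ℝ) / (M * m' : ℕ), ((j * m' + b : ℕ) : ℝ) / (M * m' : ℕ)) δ :=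
      ⟨(((a : ℝ) + 1) / (M * m' : ℕ), ((j * m' + b : ℕ) : ℝ) / (M * m' : ℕ)), by
        rw [Metric.mem_ball, Prod.dist_eq, max_lt_iff]
        exact ⟨hd1, by simpa using hδ⟩, rfl⟩
    have m3 : G (((a : ℝ) + 1) / (M * m' : ℕ)) ((((j * m' + b : ℕ) : ℝ) + 1) / (M * m' : ℕ)) ∈
        (fun z : ℝ × ℝ => G z.1 z.2) '' Metric.ball
          ((a : ℝ) / (M * m' : ℕ), ((j * m' + b : ℕ) : ℝ) / (M * m' : ℕ)) δ :=
      ⟨(((a : ℝ) + 1) / (M * m' : ℕ), (((j * m' + b : ℕ) : ℝ) + 1) / (M * m' : ℕ)), by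
        rw [Metric.mem_ball, Prod.dist_eq, max_lt_iff]
        exact ⟨hd1, hd2⟩, rfl⟩
    have m4 : G ((a : ℝ) / (M * m' : ℕ)) ((((j * m' + b : ℕ) : ℝ) + 1) / (M * m' : ℕ)) ∈
        (fun z : ℝ × ℝ => G z.1 z.2) '' Metric.ball
          ((a : ℝ) / (M * m' : ℕ), ((j * m' + b : ℕ) : ℝ) / (M * m' : ℕ)) δ :=
      ⟨((a : ℝ) / (M * m' : ℕ), (((j * m' + b : ℕ) : ℝ) + 1) / (M * m' : ℕ)), by
        rw [Metric.mem_ball, Prod.dist_eq, max_lt_iff]
        exact ⟨by simpa using hδ, hd2⟩, rfl⟩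
    rw [hloc _ m1 _ m2 _ m3, hloc _ m1 _ m4 _ m3]
  rw [Finset.sum_congr rfl (fun b hb => Finset.sum_congr rfl (hrep b hb))]
  have hrow : ∀ b ∈ range m', ∑ a ∈ range (M * m'),
      (d1 ψ (G ((a : ℝ) / (M * m' : ℕ)) (((j * m' + b : ℕ) : ℝ) / (M * m' : ℕ)))
          (G (((a : ℝ) + 1) / (M * m' : ℕ)) (((j * m' + b : ℕ) : ℝ) / (M * m' : ℕ)))
          (G (((a : ℝ) + 1) / (M * m' : ℕ)) ((((j * m' + b : ℕ) : ℝ) + 1) / (M * m' : ℕ)))
        - d1 ψ (G ((a : ℝ) / (M * m' : ℕ)) (((j * m' + b : ℕ) : ℝ) / (M * m' : ℕ)))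
          (G ((a : ℝ) / (M * m' : ℕ)) ((((j * m' + b : ℕ) : ℝ) + 1) / (M * m' : ℕ)))
          (G (((a : ℝ) + 1) / (M * m' : ℕ)) ((((j * m' + b : ℕ) : ℝ) + 1) / (M * m' : ℕ))))
      = per1 (M * m') (fun x => G x (((j * m' + b : ℕ) : ℝ) / (M * m' : ℕ))) ψ
        - per1 (M * m') (fun x => G x (((j * m' + (b + 1) : ℕ) : ℝ) / (M * m' : ℕ))) ψ := by
    intro b _
    rw [row_sum (M * m') hMm G hx ψ]
    push_cast
    rw [add_assoc]
  rw [Finset.sum_congr rfl hrow]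
  rw [Finset.sum_range_sub' (fun b : ℕ =>
    per1 (M * m') (fun x => G x (((j * m' + b : ℕ) : ℝ) / (M * m' : ℕ))) ψ)]
  have e1 : (((j * m' + 0 : ℕ) : ℝ) / (M * m' : ℕ)) = (j : ℝ) / M := by
    push_cast
    field_simp
    ring
  have e2 : (((j * m' + m' : ℕ) : ℝ) / (M * m' : ℕ)) = ((j : ℝ) + 1) / M := by
    push_cast
    field_simp
  rw [e1, e2]

lemma Ev.comp_mul {P : ℕ → Prop} (M : ℕ) (hM : 0 < M) (h : Ev (fun m' => P (M * m'))) : Ev P := by
  obtain ⟨N, hN, h1⟩ := h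
  refine ⟨M * N, Nat.mul_pos hM hN, fun m hm hd => ?_⟩
  obtain ⟨k, rfl⟩ := hd
  have hk : 0 < k := by
    rcases Nat.eq_zero_or_pos k with h0 | h0
    · subst h0; simp at hm
    · exact h0
  have := h1 (N * k) (Nat.mul_pos hN hk) (dvd_mul_right N k)
  beta_reduce at this
  rwa [← mul_assoc] at this

lemma sum_range_mul_strips (M m' : ℕ) (f : ℕ → ℚ) :
    ∑ b ∈ range (M * m'), f b = ∑ j ∈ range M, ∑ b ∈ range m', f (j * m' + b) := by
  induction M with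
  | zero => simp
  | succ M ih =>
    rw [Finset.sum_range_succ, ← ih, Nat.succ_mul, Finset.sum_range_add]

variable {B : Type*} [TopologicalSpace B]

/-- **Mixed periods of a locally vanishing cocycle are zero.** -/
theorem mixed_zero (p : X → B) (β : ℝ → B) (hβ : Continuous β) (G : ℝ → ℝ → X)
    (hG : Continuous (fun z : ℝ × ℝ => G z.1 z.2))
    (hx : ∀ x y, G (x + 1) y = G x y) (hy : ∀ x y, G x (y + 1) = G x y)
    (hp : ∀ x y, p (G x y) = β y) (k : X → X → X → ℚ)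
    (hk : ∀ b, ∃ U ∈ 𝓝 b, ∃ ψ : X → X → ℚ, EqOnNear (p ⁻¹' U) k ψ)
    (h1 : ∀ (y : ℝ) (ψ : X → X → ℚ), (∃ U ∈ 𝓝 (β y), EqOnNear (p ⁻¹' U) (fun _ _ _ => 0) ψ) →
      Ev (fun m => per1 m (fun x => G x y) ψ = 0)) :
    Ev (fun m => per2 m G k = 0) := by
  choose U hU ψ hψ using hk
  -- Lebesgue number on [0,1]
  obtain ⟨δ, hδ, hleb⟩ := lebesgue_number_lemma_of_metric
    (c := fun y : ℝ => β ⁻¹' interior (U (β y)))
    (isCompact_Icc : IsCompact (Set.Icc (0 : ℝ) 1)) (fun x => isOpen_interior.preimage hβ) (by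
      intro t _
      exact Set.mem_iUnion.2 ⟨t, mem_interior_iff_mem_nhds.2 (hU (β t))⟩)
  obtain ⟨M, hM⟩ := exists_nat_gt (1 / δ)
  have hM0 : 0 < M := by
    rcases Nat.eq_zero_or_pos M with h0 | h0
    · subst h0
      have : 0 < 1 / δ := by positivity
      simp at hM
      linarith
    · exact h0
  have hMR : (0 : ℝ) < M := by exact_mod_cast hM0
  have hMδ : 1 / (M : ℝ) < δ := by
    rw [div_lt_iff₀ hδ] at hM
    rw [div_lt_iff₀ hMR]
    linarith [mul_comm δ (M : ℝ)]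
  -- choose an index for every arc
  have hch : ∀ j : ℕ, ∃ y : ℝ, j < M → ∀ t ∈ Set.Icc ((j : ℝ) / M) (((j : ℝ) + 1) / M),
      β t ∈ interior (U (β y)) := by
    intro j
    by_cases hj : j < M
    · have hmem : ((j : ℝ) / M) ∈ Set.Icc (0 : ℝ) 1 := by
        constructor
        · positivity
        · rw [div_le_one hMR]; exact_mod_cast hj.le
      obtain ⟨y, hy⟩ := hleb _ hmem
      refine ⟨y, fun _ t ht => hy ?_⟩
      rw [Metric.mem_ball, Real.dist_eq, abs_of_nonneg (by linarith [ht.1])]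
      have : ((j : ℝ) + 1) / M = (j : ℝ) / M + 1 / M := add_div _ _ _
      linarith [ht.2]
    · exact ⟨0, fun h => absurd h hj⟩
  choose Y hY using hch
  set Ψ : ℕ → X → X → ℚ := fun j => ψ (β (Y j)) with hΨ
  -- strips
  have hstrip : ∀ j < M, Ev (fun m' => ∑ b ∈ range m', ∑ a ∈ range (M * m'),
      (k (G ((a : ℝ) / (M * m' : ℕ)) (((j * m' + b : ℕ) : ℝ) / (M * m' : ℕ)))
          (G (((a : ℝ) + 1) / (M * m' : ℕ)) (((j * m' + b : ℕ) : ℝ) / (M * m' : ℕ)))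
          (G (((a : ℝ) + 1) / (M * m' : ℕ)) ((((j * m' + b : ℕ) : ℝ) + 1) / (M * m' : ℕ)))
        - k (G ((a : ℝ) / (M * m' : ℕ)) (((j * m' + b : ℕ) : ℝ) / (M * m' : ℕ)))
          (G ((a : ℝ) / (M * m' : ℕ)) ((((j * m' + b : ℕ) : ℝ) + 1) / (M * m' : ℕ)))
          (G (((a : ℝ) + 1) / (M * m' : ℕ)) ((((j * m' + b : ℕ) : ℝ) + 1) / (M * m' : ℕ))))
      = per1 (M * m') (fun x => G x ((j : ℝ) / M)) (Ψ j)
        - per1 (M * m') (fun x => G x (((j : ℝ) + 1) / M)) (Ψ j)) := by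
    intro j hj
    refine strip G hG hx k (Ψ j) M j hM0 (fun x y hy' => ?_)
    refine hψ (β (Y j)) (G x y) ?_
    rw [Set.mem_preimage, hp]
    exact interior_subset (hY j hj y hy')
  -- junctions
  have hjun : ∀ j < M, Ev (fun m => per1 m (fun x => G x ((j : ℝ) / M)) (Ψ j)
      = per1 m (fun x => G x ((j : ℝ) / M)) (Ψ ((j + M - 1) % M))) := by
    intro j hj
    set j' := (j + M - 1) % M with hj'
    have hj'M : j' < M := Nat.mod_lt _ hM0
    have hnb : ∃ W ∈ 𝓝 (β ((j : ℝ) / M)), EqOnNear (p ⁻¹' W) (fun _ _ _ => 0)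
        (fun a b => Ψ j a b - Ψ j' a b) := by
      have ha : β ((j : ℝ) / M) ∈ interior (U (β (Y j))) := by
        apply hY j hj
        constructor
        · exact le_rfl
        · rw [add_div]
          have : 0 < 1 / (M : ℝ) := by positivity
          linarith
      have hb : β ((j : ℝ) / M) ∈ interior (U (β (Y j'))) := by
        rcases Nat.eq_zero_or_pos j with h0 | h0
        · -- wrap around
          have e0 : j' = M - 1 := by
            rw [hj', h0, zero_add, Nat.mod_eq_of_lt (by omega)]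
          have : β ((j : ℝ) / M) = β 1 := by
            rw [h0]
            have h2 := hp 0 0
            have h3 := hp 0 (0 + 1)
            rw [hy 0 0] at h3
            rw [zero_add] at h3
            simp only [Nat.cast_zero, zero_div]
            rw [← h2, ← h3]
          rw [this]
          apply hY j' hj'M
          rw [e0]
          have e1 : ((M - 1 : ℕ) : ℝ) = (M : ℝ) - 1 := by
            push_cast [Nat.cast_sub (Nat.succ_le_of_lt hM0)]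
            ring
          rw [e1]
          constructor
          · rw [div_le_one hMR]; linarith
          · rw [sub_add_cancel, div_self hMR.ne']
        · have e0 : j' = j - 1 := by
            rw [hj']
            have : j + M - 1 = (j - 1) + M := by omega
            rw [this, Nat.add_mod_right, Nat.mod_eq_of_lt (by omega)]
          apply hY j' hj'M
          rw [e0]
          have e1 : ((j - 1 : ℕ) : ℝ) = (j : ℝ) - 1 := by
            push_cast [Nat.cast_sub (Nat.succ_le_of_lt h0)]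
            ring
          rw [e1]
          constructor
          · rw [div_le_div_iff_of_pos_right hMR]; linarith
          · rw [sub_add_cancel]
      refine ⟨interior (U (β (Y j))) ∩ interior (U (β (Y j'))),
        IsOpen.mem_nhds (isOpen_interior.inter isOpen_interior) ⟨ha, hb⟩, ?_⟩
      intro x hx'
      obtain ⟨W1, hW1, hk1⟩ := hψ (β (Y j)) x
        (show p x ∈ U (β (Y j)) from interior_subset hx'.1)
      obtain ⟨W2, hW2, hk2⟩ := hψ (β (Y j')) x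
        (show p x ∈ U (β (Y j')) from interior_subset hx'.2)
      refine ⟨W1 ∩ W2, Filter.inter_mem hW1 hW2, ?_⟩
      intro a ha' b hb' c hc'
      have t1 := hk1 a ha'.1 b hb'.1 c hc'.1
      have t2 := hk2 a ha'.2 b hb'.2 c hc'.2
      have t3 : d1 (fun a b => Ψ j a b - Ψ j' a b) a b c
          = d1 (ψ (β (Y j))) a b c - d1 (ψ (β (Y j'))) a b c := by
        unfold d1; simp only [hΨ]; ring
      rw [t3, ← t1, ← t2, sub_self]
    refine (h1 _ _ hnb).mono (fun m _ hm => ?_)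
    have : per1 m (fun x => G x ((j : ℝ) / M)) (fun a b => Ψ j a b - Ψ j' a b)
        = per1 m (fun x => G x ((j : ℝ) / M)) (Ψ j) - per1 m (fun x => G x ((j : ℝ) / M)) (Ψ j') := by
      unfold per1; rw [← Finset.sum_sub_distrib]
    rw [this] at hm
    linarith
  refine Ev.comp_mul M hM0 ?_
  have hjun' : Ev (fun m' => ∀ j < M, per1 (M * m') (fun x => G x ((j : ℝ) / M)) (Ψ j)
      = per1 (M * m') (fun x => G x ((j : ℝ) / M)) (Ψ ((j + M - 1) % M))) := by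
    obtain ⟨N, hN, hN'⟩ := Ev.forall_lt M hjun
    exact ⟨N, hN, fun m' hm' hd => hN' (M * m') (Nat.mul_pos hM0 hm') (dvd_mul_of_dvd_right hd M)⟩
  refine ((Ev.forall_lt M hstrip).and hjun').mono (fun m' hm' h => ?_)
  obtain ⟨hs, hj⟩ := h
  unfold per2
  rw [Finset.sum_comm, sum_range_mul_strips]
  rw [Finset.sum_congr rfl (fun j hj' => hs j (mem_range.1 hj'))]
  rw [Finset.sum_sub_distrib]
  -- shift the second sum
  obtain ⟨M', rfl⟩ : ∃ M', M = M' + 1 := ⟨M - 1, by omega⟩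
  have hsh : ∑ j ∈ range (M' + 1), per1 ((M' + 1) * m')
        (fun x => G x (((j : ℝ) + 1) / ((M' + 1 : ℕ) : ℝ))) (Ψ j)
      = ∑ j ∈ range (M' + 1), per1 ((M' + 1) * m')
        (fun x => G x ((j : ℝ) / ((M' + 1 : ℕ) : ℝ))) (Ψ ((j + (M' + 1) - 1) % (M' + 1))) := by
    rw [Finset.sum_range_succ, Finset.sum_range_succ', add_comm]
    have hlast : per1 ((M' + 1) * m') (fun x => G x (((M' : ℝ) + 1) / ((M' + 1 : ℕ) : ℝ))) (Ψ M')
        = per1 ((M' + 1) * m') (fun x => G x (((0 : ℕ) : ℝ) / ((M' + 1 : ℕ) : ℝ)))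
          (Ψ ((0 + (M' + 1) - 1) % (M' + 1))) := by
      have e1 : ((M' : ℝ) + 1) / ((M' + 1 : ℕ) : ℝ) = 0 + 1 := by
        push_cast
        rw [div_self (by positivity), zero_add]
      have e2 : (0 + (M' + 1) - 1) % (M' + 1) = M' := by
        rw [show 0 + (M' + 1) - 1 = M' by omega, Nat.mod_eq_of_lt (by omega)]
      rw [e1, e2]
      simp only [hy]
      simp
    have hrest : ∀ j ∈ range M', per1 ((M' + 1) * m')
        (fun x => G x (((j : ℝ) + 1) / ((M' + 1 : ℕ) : ℝ))) (Ψ j)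
        = per1 ((M' + 1) * m') (fun x => G x ((((j + 1 : ℕ) : ℕ) : ℝ) / ((M' + 1 : ℕ) : ℝ)))
          (Ψ ((j + 1 + (M' + 1) - 1) % (M' + 1))) := by
      intro j hj'
      rw [mem_range] at hj'
      have e2 : (j + 1 + (M' + 1) - 1) % (M' + 1) = j := by
        rw [show j + 1 + (M' + 1) - 1 = j + (M' + 1) by omega, Nat.add_mod_right,
          Nat.mod_eq_of_lt (by omega)]
      rw [e2]
      push_cast
      rfl
    rw [hlast, Finset.sum_congr rfl hrest]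
    ring
  rw [hsh, ← Finset.sum_sub_distrib]
  refine Finset.sum_eq_zero (fun j hj' => ?_)
  rw [hj j (mem_range.1 hj'), sub_self]

/-- a 2-torus in one fibre -/
theorem fibre_zero (p : X → B) (b : B) (G : ℝ → ℝ → X)
    (hG : Continuous (fun z : ℝ × ℝ => G z.1 z.2))
    (hx : ∀ x y, G (x + 1) y = G x y) (hy : ∀ x y, G x (y + 1) = G x y)
    (hp : ∀ x y, p (G x y) = b) (k : X → X → X → ℚ)
    (hk : ∀ b, ∃ U ∈ 𝓝 b, ∃ ψ : X → X → ℚ, EqOnNear (p ⁻¹' U) k ψ) :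
    Ev (fun m => per2 m G k = 0) := by
  obtain ⟨U, hU, ψ, hψ⟩ := hk b
  have := strip G hG hx k ψ 1 0 one_pos (fun x y _ => hψ (G x y) (by
    rw [Set.mem_preimage, hp]; exact mem_of_mem_nhds hU))
  refine this.mono (fun m hm h => ?_)
  unfold per2
  rw [Finset.sum_comm]
  simp only [one_mul, zero_mul, zero_add, Nat.cast_zero, Nat.cast_one, div_one] at h
  rw [h]
  have h2 : ∀ x, G x 1 = G x 0 := by
    intro x
    have := hy x 0
    rwa [zero_add] at this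
  simp only [h2, sub_self]

end Space

end K3B
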